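import Pool.Agent.H589.Irr.Spec

/-! # Irr/BIG (helper333 for helper589): few members vanish at a point with `|α|^k ≥ 2` -/

set_option autoImplicit false

open Polynomial Finset

namespace Pool.Agent.H589.Irr

namespace big_

theorem geom {x : ℝ} (hx : 2 ≤ x) (m : ℕ) : ∑ j ∈ range m, x ^ j ≤ x ^ m - 1 := by
  induction m with
  | zero => simp
  | succ m ih =>
    rw [sum_range_succ, pow_succ]
    have h1 : 1 ≤ x ^ m := one_le_pow₀ (by linarith)
    nlinarith

theorem uniq {β : ℂ} (hβ : 2 ≤ ‖β‖) : ∀ (m : ℕ) (f : ℕ → ℂ), (∀ j, f j = 0 ∨ ‖f j‖ = 1) →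
    ∑ j ∈ range m, f j * β ^ j = 0 → ∀ j < m, f j = 0 := by
  intro m
  induction m with
  | zero =>
    intro f _ _ j hj
    omega
  | succ m ih =>
    intro f hf h j hj
    rw [sum_range_succ] at h
    have hm : f m = 0 := by
      rcases hf m with h0 | h1
      · exact h0
      · exfalso
        have h2 : f m * β ^ m = -∑ j ∈ range m, f j * β ^ j := by
          rw [eq_neg_iff_add_eq_zero, add_comm]
          exact h
        have h3 : ‖β‖ ^ m ≤ ∑ j ∈ range m, ‖β‖ ^ j := by
          calc ‖β‖ ^ m = ‖f m * β ^ m‖ := by rw [norm_mul, norm_pow, h1, one_mul]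
            _ = ‖∑ j ∈ range m, f j * β ^ j‖ := by rw [h2, norm_neg]
            _ ≤ ∑ j ∈ range m, ‖f j * β ^ j‖ := norm_sum_le _ _
            _ ≤ ∑ j ∈ range m, ‖β‖ ^ j := by
                refine sum_le_sum fun j _ => ?_
                rw [norm_mul, norm_pow]
                have h4 : ‖f j‖ ≤ 1 := by
                  rcases hf j with h5 | h5
                  · rw [h5, norm_zero]
                    exact zero_le_one
                  · exact h5.le
                exact mul_le_of_le_one_left (by positivity) h4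
        have h6 := geom hβ m
        linarith
    rcases Nat.lt_succ_iff_lt_or_eq.1 hj with h7 | h7
    · refine ih f hf ?_ j h7
      rw [hm, zero_mul, add_zero] at h
      exact h
    · rw [h7]
      exact hm

theorem sumB (k M : ℕ) (hk : 0 < k) (α : ℂ) (B : Finset ℕ)
    (hB : B ⊆ (range M).image (fun j => k * (j + 1))) :
    ∑ i ∈ B, α ^ i =
      α ^ k * ∑ j ∈ range M, (if k * (j + 1) ∈ B then (1 : ℂ) else 0) * (α ^ k) ^ j := by
  have h1 : ∑ i ∈ B, α ^ i =
      ∑ i ∈ (range M).image (fun j => k * (j + 1)), if i ∈ B then α ^ i else 0 := by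
    rw [sum_ite_mem, inter_eq_right.2 hB]
  rw [h1, sum_image, mul_sum]
  · refine sum_congr rfl fun j _ => ?_
    split_ifs
    · rw [one_mul, ← pow_mul, ← pow_add]
      congr 1
      ring
    · rw [zero_mul, mul_zero]
  · intro a _ b _ h
    have h2 := Nat.eq_of_mul_eq_mul_left hk h
    omega

theorem inj {k M : ℕ} (hk : 0 < k) {α : ℂ} (hα : 2 ≤ ‖α‖ ^ k) {B B' : Finset ℕ}
    (hB : B ⊆ (range M).image (fun j => k * (j + 1)))
    (hB' : B' ⊆ (range M).image (fun j => k * (j + 1)))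
    (h : ∑ i ∈ B, α ^ i = ∑ i ∈ B', α ^ i) : B = B' := by
  rw [sumB k M hk α B hB, sumB k M hk α B' hB'] at h
  have hβ : 2 ≤ ‖α ^ k‖ := by
    rw [norm_pow]
    exact hα
  have h0 : α ^ k ≠ 0 := by
    intro h1
    rw [h1, norm_zero] at hβ
    linarith
  have h1 := mul_left_cancel₀ h0 h
  have h2 : ∑ j ∈ range M, ((if k * (j + 1) ∈ B then (1 : ℂ) else 0) -
      (if k * (j + 1) ∈ B' then (1 : ℂ) else 0)) * (α ^ k) ^ j = 0 := by
    rw [← sub_eq_zero, ← sum_sub_distrib] at h1
    exact (sum_congr rfl fun j _ => sub_mul _ _ _).trans h1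
  have h3 := uniq hβ M (fun j => (if k * (j + 1) ∈ B then (1 : ℂ) else 0) -
      (if k * (j + 1) ∈ B' then (1 : ℂ) else 0)) (fun j => by split_ifs <;> simp) h2
  have key : ∀ j < M, (k * (j + 1) ∈ B ↔ k * (j + 1) ∈ B') := by
    intro j hj
    have h4 := h3 j hj
    by_cases a : k * (j + 1) ∈ B <;> by_cases b : k * (j + 1) ∈ B'
    · exact ⟨fun _ => b, fun _ => a⟩
    · simp [a, b] at h4
    · simp [a, b] at h4
    · exact ⟨fun h5 => absurd h5 a, fun h5 => absurd h5 b⟩
  ext i
  constructor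
  · intro hi
    obtain ⟨j, hj, rfl⟩ := mem_image.1 (hB hi)
    exact (key j (mem_range.1 hj)).1 hi
  · intro hi
    obtain ⟨j, hj, rfl⟩ := mem_image.1 (hB' hi)
    exact (key j (mem_range.1 hj)).2 hi

theorem aev (P : ℤ[X]) (c : ℤ) (α : ℂ) (S J : Finset ℕ) :
    aeval α (fam P c S) = aeval α P + (c : ℂ) * (∑ i ∈ S ∩ J, α ^ i + ∑ i ∈ S \ J, α ^ i) := by
  unfold fam
  have h : ∑ i ∈ S ∩ J, α ^ i + ∑ i ∈ S \ J, α ^ i = ∑ i ∈ S, α ^ i := by
    rw [← sum_union (disjoint_sdiff_inter S J).symm, union_comm, sdiff_union_inter]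
  rw [h, map_add, map_mul, map_sum]
  congr 2
  · simp
  · exact sum_congr rfl fun i _ => by simp

end big_

theorem big : S_Big := by
  classical
  intro n I hI P c hc k α hk hα
  obtain ⟨M, hM⟩ : ∃ M, M = (n - 1) / k := ⟨_, rfl⟩
  obtain ⟨J, hJ⟩ : ∃ J, J = (range M).image (fun j => k * (j + 1)) := ⟨_, rfl⟩
  have hJI : J ⊆ I := by
    intro i hi
    rw [hJ] at hi
    obtain ⟨j, hj, rfl⟩ := mem_image.1 hi
    have hj' : j + 1 ≤ M := mem_range.1 hj
    have h1 : k * (j + 1) ≤ k * M := Nat.mul_le_mul_left k hj'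
    have h2 : k * M ≤ n - 1 := by
      rw [hM]
      exact Nat.mul_div_le _ _
    have h3 : 0 < k * (j + 1) := Nat.mul_pos hk (Nat.succ_pos j)
    exact hI (mem_Ioo.2 ⟨h3, by omega⟩)
  have hJc : J.card = M := by
    rw [hJ, card_image_of_injective, card_range]
    intro a b h
    have h2 := Nat.eq_of_mul_eq_mul_left hk h
    omega
  have hc' : (c : ℂ) ≠ 0 := by exact_mod_cast hc
  unfold cnt
  refine le_trans (b := (((I \ J).powerset.card : ℕ) : ℝ)) (Nat.cast_le.2 ?_) (le_of_eq ?_)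
  · refine card_le_card_of_injOn (fun S => S \ J) ?_ ?_
    · intro S hS
      have h1 := mem_powerset.1 (mem_filter.1 hS).1
      exact mem_powerset.2 (sdiff_subset_sdiff h1 le_rfl)
    · intro S hS S' hS' h
      have h1 := (mem_filter.1 hS).2
      have h2 := (mem_filter.1 hS').2
      have h3 : S \ J = S' \ J := h
      rw [big_.aev P c α S J] at h1
      rw [big_.aev P c α S' J, ← h3] at h2
      have h4 : (c : ℂ) * (∑ i ∈ S ∩ J, α ^ i + ∑ i ∈ S \ J, α ^ i) =
          (c : ℂ) * (∑ i ∈ S' ∩ J, α ^ i + ∑ i ∈ S \ J, α ^ i) :=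
        add_left_cancel (h1.trans h2.symm)
      have h5 := add_right_cancel (mul_left_cancel₀ hc' h4)
      have h6 : S ∩ J = S' ∩ J := by
        refine big_.inj (M := M) hk hα ?_ ?_ h5
        · rw [← hJ]
          exact inter_subset_right
        · rw [← hJ]
          exact inter_subset_right
      calc S = S \ J ∪ S ∩ J := (sdiff_union_inter S J).symm
        _ = S' \ J ∪ S' ∩ J := by rw [h3, h6]
        _ = S' := sdiff_union_inter S' J
  · rw [card_powerset, card_sdiff_of_subset hJI, ← hM, Nat.cast_pow, Nat.cast_ofNat,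
      pow_sub₀ (2 : ℝ) two_ne_zero (card_le_card hJI), hJc, div_eq_mul_inv]

end Pool.Agent.H589.Irr
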