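import Pool.Agent.H589.Irr.Spec

/-! # The number of integer polynomials of bounded degree and Mahler measure -/

set_option autoImplicit false

open Polynomial Finset

namespace Pool.Agent.H589.Irr

theorem box : S_Box := by
  intro m B hB F hF
  have hB0 : 0 ≤ B := zero_le_one.trans hB
  set b : NNReal := ⟨B, hB0⟩ with hb
  have hbB : (b : ℝ) = B := rfl
  have hsub : (F : Set ℤ[X]) ⊆
      {p : ℤ[X] | p.natDegree ≤ m ∧ (p.map (Int.castRingHom ℂ)).mahlerMeasure ≤ b} := by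
    intro g hg
    exact hF g (Finset.mem_coe.1 hg)
  have h1 : F.card ≤ ∏ i : Fin (m + 1), (2 * ⌊m.choose i * b⌋₊ + 1) := by
    rw [← Set.ncard_coe_finset]
    exact (Set.ncard_le_ncard hsub (finite_mahlerMeasure_le m b)).trans
      (card_mahlerMeasure_le_prod m b)
  have h2 : ∀ i : Fin (m + 1), ((2 * ⌊m.choose i * b⌋₊ + 1 : ℕ) : ℝ) ≤ 2 ^ (m + 2) * B := by
    intro i
    have h3 : ((⌊m.choose i * b⌋₊ : ℕ) : ℝ) ≤ m.choose i * B := by
      have h4 : ((⌊m.choose i * b⌋₊ : ℕ) : NNReal) ≤ m.choose i * b := Nat.floor_le (by positivity)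
      have h5 : (((⌊m.choose i * b⌋₊ : ℕ) : NNReal) : ℝ) ≤ ((m.choose i * b : NNReal) : ℝ) :=
        NNReal.coe_le_coe.2 h4
      rw [NNReal.coe_natCast, NNReal.coe_mul, NNReal.coe_natCast, hbB] at h5
      exact h5
    have h6 : (m.choose i : ℝ) ≤ 2 ^ m := by
      exact_mod_cast Nat.choose_le_two_pow m i
    have h7 : (m.choose i : ℝ) * B ≤ 2 ^ m * B := mul_le_mul_of_nonneg_right h6 hB0
    have h8 : (1 : ℝ) ≤ 2 ^ m := one_le_pow₀ (by norm_num)
    have h9 : (1 : ℝ) ≤ 2 ^ m * B := by nlinarith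
    push_cast
    have h10 : (2 : ℝ) ^ (m + 2) * B = 4 * (2 ^ m * B) := by ring
    rw [h10]
    linarith
  have h11 : (F.card : ℝ) ≤ ∏ i : Fin (m + 1), ((2 * ⌊m.choose i * b⌋₊ + 1 : ℕ) : ℝ) := by
    exact_mod_cast h1
  refine h11.trans ?_
  calc ∏ i : Fin (m + 1), ((2 * ⌊m.choose i * b⌋₊ + 1 : ℕ) : ℝ)
      ≤ ∏ _i : Fin (m + 1), (2 ^ (m + 2) * B) :=
        Finset.prod_le_prod (fun i _ => Nat.cast_nonneg _) (fun i _ => h2 i)
    _ = (2 ^ (m + 2) * B) ^ (m + 1) := by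
        rw [Finset.prod_const, Finset.card_univ, Fintype.card_fin]

end Pool.Agent.H589.Irr
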