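import Pool.Agent.H589.Irr.Spec

/-!
# Fibration count, and few members of the family are multiples of a given polynomial
-/

set_option autoImplicit false

open Polynomial Finset

namespace Pool.Agent.H589.Irr

theorem fiber : S_Fiber := by
  classical
  intro I J hJ Q N hN h
  unfold cnt at h ⊢
  have hmap : ∀ S ∈ I.powerset.filter Q, S \ J ∈ (I \ J).powerset := by
    intro S hS
    rw [Finset.mem_powerset]
    exact Finset.sdiff_subset_sdiff (Finset.mem_powerset.1 (Finset.mem_filter.1 hS).1) le_rfl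
  have h1 := Finset.card_eq_sum_card_fiberwise hmap
  have h2 : ∀ A ∈ (I \ J).powerset,
      ((((I.powerset.filter Q).filter fun S => S \ J = A).card : ℕ) : ℝ) ≤ N := by
    intro A hA
    refine le_trans ?_ (h A (Finset.mem_powerset.1 hA))
    have h3 : ((I.powerset.filter Q).filter fun S => S \ J = A).card ≤
        (J.powerset.filter fun B => Q (A ∪ B)).card := by
      refine Finset.card_le_card_of_injOn (fun S => S ∩ J) ?_ ?_
      · intro S hS
        rw [Finset.mem_coe, Finset.mem_filter, Finset.mem_filter] at hS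
        rw [Finset.mem_coe, Finset.mem_filter, Finset.mem_powerset]
        refine ⟨Finset.inter_subset_right, ?_⟩
        change Q (A ∪ S ∩ J)
        rw [← hS.2, Finset.sdiff_union_inter]
        exact hS.1.2
      · intro S hS S' hS' hSS
        rw [Finset.mem_coe, Finset.mem_filter] at hS hS'
        have h4 : S ∩ J = S' ∩ J := hSS
        rw [← Finset.sdiff_union_inter S J, ← Finset.sdiff_union_inter S' J, hS.2, hS'.2, h4]
    exact_mod_cast h3
  have h3 : ((I.powerset.filter Q).card : ℝ) ≤ ((I \ J).powerset.card : ℝ) * N := by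
    rw [h1, Nat.cast_sum]
    refine (Finset.sum_le_sum h2).trans ?_
    rw [Finset.sum_const, nsmul_eq_mul]
  have h4 : ((I \ J).powerset.card : ℝ) = 2 ^ I.card / 2 ^ J.card := by
    rw [Finset.card_powerset, Finset.card_sdiff_of_subset hJ, eq_div_iff (by positivity)]
    push_cast
    rw [← pow_add, Nat.sub_add_cancel (Finset.card_le_card hJ)]
  rw [h4] at h3
  refine le_trans (le_of_eq ?_) h3
  congr

theorem div_.coeff_sum (B : Finset ℕ) (i : ℕ) :
    (∑ j ∈ B, (X : ℤ[X]) ^ j).coeff i = if i ∈ B then 1 else 0 := by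
  rw [Polynomial.finsetSum_coeff]
  simp only [Polynomial.coeff_X_pow]
  rw [Finset.sum_ite_eq]

theorem div_.unique (g : ℤ[X]) (A : Finset ℕ) (P : ℤ[X]) (c : ℤ) (hc : c ≠ 0)
    (hg : 1 ≤ g.natDegree) (hA : Disjoint A (Ioo 0 g.natDegree)) (B B' : Finset ℕ)
    (hB : B ⊆ Ioo 0 g.natDegree) (hB' : B' ⊆ Ioo 0 g.natDegree)
    (h : g ∣ fam P c (A ∪ B)) (h' : g ∣ fam P c (A ∪ B')) : B = B' := by
  have e : fam P c (A ∪ B) - fam P c (A ∪ B') =
      C c * (∑ i ∈ B, X ^ i - ∑ i ∈ B', X ^ i) := by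
    unfold fam
    rw [Finset.sum_union (hA.mono_right hB), Finset.sum_union (hA.mono_right hB')]
    ring
  have h1 : g ∣ C c * (∑ i ∈ B, X ^ i - ∑ i ∈ B', X ^ i) := by
    rw [← e]
    exact dvd_sub h h'
  have hdeg : ∀ D : Finset ℕ, D ⊆ Ioo 0 g.natDegree →
      (∑ i ∈ D, (X : ℤ[X]) ^ i).natDegree ≤ g.natDegree - 1 := by
    intro D hD
    refine Polynomial.natDegree_sum_le_of_forall_le _ _ fun i hi => ?_
    rw [Polynomial.natDegree_X_pow]
    have := (Finset.mem_Ioo.1 (hD hi)).2
    omega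
  have h2 : (C c * (∑ i ∈ B, (X : ℤ[X]) ^ i - ∑ i ∈ B', X ^ i)).natDegree < g.natDegree := by
    refine lt_of_le_of_lt ((Polynomial.natDegree_C_mul_le _ _).trans
      ((Polynomial.natDegree_sub_le _ _).trans (max_le (hdeg B hB) (hdeg B' hB')))) ?_
    omega
  have h3 := Polynomial.eq_zero_of_dvd_of_natDegree_lt h1 h2
  have hC : (C c : ℤ[X]) ≠ 0 := fun h => hc (Polynomial.C_eq_zero.1 h)
  have h4 : (∑ i ∈ B, (X : ℤ[X]) ^ i) = ∑ i ∈ B', X ^ i :=
    sub_eq_zero.1 ((mul_eq_zero.1 h3).resolve_left hC)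
  ext i
  have h5 := congrArg (fun f : ℤ[X] => f.coeff i) h4
  simp only [div_.coeff_sum] at h5
  by_cases hi : i ∈ B <;> by_cases hi' : i ∈ B' <;> simp_all

theorem div : S_Div := by
  classical
  intro n I hI P c hc g hg hgn
  have hJ : Ioo 0 g.natDegree ⊆ I := fun i hi => hI (by
    rw [Finset.mem_Ioo] at hi ⊢
    omega)
  have h := fiber I (Ioo 0 g.natDegree) hJ (fun S => g ∣ fam P c S) 1 zero_le_one ?_
  · rw [mul_one, Nat.card_Ioo] at h
    simpa using h
  · intro A hA
    unfold cnt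
    have hAJ : Disjoint A (Ioo 0 g.natDegree) := Finset.disjoint_of_subset_left hA
      Finset.sdiff_disjoint
    have h1 : ((Ioo 0 g.natDegree).powerset.filter fun B => g ∣ fam P c (A ∪ B)).card ≤ 1 := by
      rw [Finset.card_le_one]
      intro B hB B' hB'
      rw [Finset.mem_filter, Finset.mem_powerset] at hB hB'
      exact div_.unique g A P c hc hg hAJ B B' hB.1 hB'.1 hB.2 hB'.2
    refine le_trans (le_of_eq ?_) (Nat.cast_le.2 h1 |>.trans (le_of_eq Nat.cast_one))
    congr

end Pool.Agent.H589.Irr
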