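import Pool.Agent.H589.Irr.Spec

set_option autoImplicit false

open Polynomial Finset

namespace Pool.Agent.H589.Irr

lemma house_.norm_pow_lt {z : ℂ} {N j : ℕ} (h : ‖z‖ ^ N < 2) (hj : j ≤ N) : ‖z‖ ^ j < 2 := by
  rcases le_or_gt ‖z‖ 1 with h1 | h1
  · exact lt_of_le_of_lt (pow_le_one₀ (norm_nonneg z) h1) (by norm_num)
  · exact lt_of_le_of_lt (pow_le_pow_right₀ h1.le hj) h

lemma house_.norm_sum_le (R : Multiset ℂ) (f : ℂ → ℂ) (h : ∀ z ∈ R, ‖f z‖ ≤ 2) :
    ‖(R.map f).sum‖ ≤ 2 * R.card := by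
  induction R using Multiset.induction_on with
  | empty => simp
  | cons a s ih =>
    rw [Multiset.map_cons, Multiset.sum_cons, Multiset.card_cons]
    have h1 := ih (fun z hz => h z (Multiset.mem_cons_of_mem hz))
    have h2 := h a (Multiset.mem_cons_self a s)
    have h3 := norm_add_le (f a) (s.map f).sum
    push_cast
    linarith

theorem house : S_Trace → S_Psum → S_House := by
  intro hT hP g hg hm hz
  set R := (g.map (Int.castRingHom ℂ)).roots with hR
  have hcard : R.card = g.natDegree := by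
    rw [hR, ← hg.natDegree_map (Int.castRingHom ℂ)]
    exact (splits_iff_card_roots.1 (IsAlgClosed.splits _))
  set m := g.natDegree with hm'
  obtain ⟨p, hp, hp1, hp2⟩ := Nat.exists_prime_lt_and_le_two_mul (4 * m) (by omega)
  have hpow : ∀ k : ℕ, 1 ≤ k → k ≤ m → (R.map (fun z => z ^ (k * p))).sum = (R.map (fun z => z ^ k)).sum := by
    intro k hk1 hkm
    obtain ⟨t, ht⟩ := hT g hg p hp k
    rw [← hR] at ht
    have hkp : k * p ≤ 8 * m ^ 2 := by
      calc k * p ≤ m * (2 * (4 * m)) := Nat.mul_le_mul hkm hp2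
        _ = 8 * m ^ 2 := by ring
    have hk' : k ≤ 8 * m ^ 2 := le_trans (Nat.le_mul_of_pos_right k hp.pos) hkp
    have h1 : ‖(R.map (fun z => z ^ (k * p))).sum‖ ≤ 2 * R.card := by
      apply house_.norm_sum_le
      intro z hzR
      rw [norm_pow]
      exact (house_.norm_pow_lt (hz z hzR) hkp).le
    have h2 : ‖(R.map (fun z => z ^ k)).sum‖ ≤ 2 * R.card := by
      apply house_.norm_sum_le
      intro z hzR
      rw [norm_pow]
      exact (house_.norm_pow_lt (hz z hzR) hk').le
    have h3 := norm_sub_le (R.map (fun z => z ^ (k * p))).sum (R.map (fun z => z ^ k)).sum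
    rw [ht, norm_mul, Complex.norm_natCast, Complex.norm_intCast] at h3
    rw [hcard] at h1 h2
    have h4 : (4 * m : ℝ) < p := by exact_mod_cast hp1
    have ht0 : t = 0 := by
      by_contra hne
      have h5 : (1 : ℝ) ≤ |(t : ℝ)| := by
        rw [← Int.cast_abs]
        exact_mod_cast Int.one_le_abs hne
      have h6 : (p : ℝ) * 1 ≤ p * |(t : ℝ)| := mul_le_mul_of_nonneg_left h5 (Nat.cast_nonneg _)
      linarith
    rw [ht0, Int.cast_zero, mul_zero] at ht
    exact sub_eq_zero.1 ht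
  have hRR : R = R.map (fun z => z ^ p) := by
    apply hP
    · rw [Multiset.card_map]
    · intro k hk1 hk2
      rw [hcard] at hk2
      rw [Multiset.map_map, ← hpow k hk1 hk2]
      congr 1
      apply Multiset.map_congr rfl
      intro z _
      simp only [Function.comp_apply]
      rw [← pow_mul, mul_comm]
  have hstep : ∀ z ∈ R, z ^ p ∈ R := by
    intro z hzR
    rw [hRR]
    exact Multiset.mem_map_of_mem (fun z => z ^ p) hzR
  intro z hzR
  have hall : ∀ j : ℕ, z ^ (p ^ j) ∈ R := by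
    intro j
    induction j with
    | zero => simpa using hzR
    | succ j ih =>
      rw [pow_succ, pow_mul]
      exact hstep _ ih
  obtain ⟨i, j, hij, he⟩ : ∃ i j : ℕ, i < j ∧ z ^ (p ^ i) = z ^ (p ^ j) := by
    classical
    obtain ⟨i, j, hne, he⟩ := Finite.exists_ne_map_eq_of_infinite
      (fun j : ℕ => (⟨z ^ (p ^ j), by simpa using hall j⟩ : {x // x ∈ R.toFinset}))
    have he' : z ^ (p ^ i) = z ^ (p ^ j) := congrArg Subtype.val he
    rcases lt_or_gt_of_ne hne with h | h
    · exact ⟨i, j, h, he'⟩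
    · exact ⟨j, i, h, he'.symm⟩
  by_cases hz0 : z = 0
  · exact Or.inl hz0
  right
  have hlt : p ^ i < p ^ j := Nat.pow_lt_pow_right hp.one_lt hij
  refine ⟨p ^ j - p ^ i, by omega, ?_⟩
  have h1 : z ^ (p ^ i) * z ^ (p ^ j - p ^ i) = z ^ (p ^ i) * 1 := by
    rw [← pow_add, mul_one, Nat.add_sub_cancel' hlt.le, he]
  exact mul_left_cancel₀ (pow_ne_zero _ hz0) h1

end Pool.Agent.H589.Irr
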