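import Pool.Agent.H589.Irr.Spec

/-!
# Irr, task littlewood: the frozen statement on random Littlewood polynomials from `S_Main`
-/

set_option autoImplicit false

open Polynomial Finset

namespace Pool.Agent.H589.Irr

namespace littlewood_

/-- the base polynomial `-(1 + X + ⋯ + X^n)` -/
noncomputable def base (n : ℕ) : ℤ[X] := -∑ i ∈ range (n + 1), (X : ℤ[X]) ^ i

lemma coeff_sum_X (T : Finset ℕ) (j : ℕ) :
    (∑ i ∈ T, (X : ℤ[X]) ^ i).coeff j = if j ∈ T then 1 else 0 := by
  rw [finsetSum_coeff]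
  simp only [coeff_X_pow]
  rw [Finset.sum_ite_eq]

lemma coeff_fam (n : ℕ) {S : Finset ℕ} (hS : S ⊆ range (n + 1)) (j : ℕ) :
    (fam (base n) 2 S).coeff j = if j < n + 1 then (if j ∈ S then 1 else -1) else 0 := by
  unfold fam base
  rw [coeff_add, coeff_neg, coeff_C_mul, coeff_sum_X, coeff_sum_X]
  by_cases h1 : j < n + 1
  · rw [if_pos h1, if_pos (mem_range.2 h1)]
    by_cases h2 : j ∈ S
    · rw [if_pos h2, if_pos h2]
      norm_num
    · rw [if_neg h2, if_neg h2]
      norm_num
  · have h2 : j ∉ S := fun h => h1 (mem_range.1 (hS h))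
    rw [if_neg h1, if_neg h2, if_neg (fun h => h1 (mem_range.1 h))]
    norm_num

lemma coeff_abs (n : ℕ) {S : Finset ℕ} (hS : S ⊆ range (n + 1)) {j : ℕ} (hj : j < n + 1) :
    (fam (base n) 2 S).coeff j = 1 ∨ (fam (base n) 2 S).coeff j = -1 := by
  rw [coeff_fam n hS, if_pos hj]
  by_cases h : j ∈ S
  · rw [if_pos h]
    exact Or.inl rfl
  · rw [if_neg h]
    exact Or.inr rfl

lemma natDegree_fam (n : ℕ) {S : Finset ℕ} (hS : S ⊆ range (n + 1)) :
    (fam (base n) 2 S).natDegree = n := by
  apply natDegree_eq_of_le_of_coeff_ne_zero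
  · rw [natDegree_le_iff_coeff_eq_zero]
    intro N hN
    rw [coeff_fam n hS, if_neg (by omega)]
  · rcases coeff_abs n hS (Nat.lt_succ_self n) with h | h <;> rw [h] <;> norm_num

lemma mahler_fam (n : ℕ) {S : Finset ℕ} (hS : S ⊆ range (n + 1)) :
    ((fam (base n) 2 S).map (Int.castRingHom ℂ)).mahlerMeasure ≤ √((n : ℝ) + 1) := by
  set p := (fam (base n) 2 S).map (Int.castRingHom ℂ) with hp
  refine (mahlerMeasure_le_sqrt_sum_sq_norm_coeff _).trans ?_
  apply Real.sqrt_le_sqrt
  have h1 : p.support ⊆ range (n + 1) := by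
    intro i hi
    rw [mem_range]
    by_contra h
    have h2 : (fam (base n) 2 S).coeff i = 0 := by
      rw [coeff_fam n hS, if_neg h]
    have h3 := mem_support_iff.mp hi
    rw [hp, coeff_map, h2] at h3
    simp at h3
  calc ∑ i ∈ p.support, ‖p.coeff i‖ ^ 2
      ≤ ∑ i ∈ range (n + 1), ‖p.coeff i‖ ^ 2 :=
        sum_le_sum_of_subset_of_nonneg h1 fun _ _ _ => by positivity
    _ ≤ ∑ i ∈ range (n + 1), (1 : ℝ) := by
        apply sum_le_sum
        intro i hi
        rw [hp, coeff_map]
        rcases coeff_abs n hS (mem_range.1 hi) with h | h <;> rw [h] <;> simp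
    _ = (n : ℝ) + 1 := by
        rw [sum_const, card_range, nsmul_eq_mul, mul_one]
        push_cast
        ring

lemma good (n : ℕ) : Good n (range (n + 1)) (base n) 2 := by
  refine ⟨by norm_num, ?_, fun S hS => ⟨natDegree_fam n hS, ?_, ?_, mahler_fam n hS⟩⟩
  · intro i hi
    have := mem_Ioo.1 hi
    exact mem_range.2 (by omega)
  · unfold leadingCoeff
    rw [natDegree_fam n hS]
    rcases coeff_abs n hS (Nat.lt_succ_self n) with h | h <;> rw [h] <;> norm_num
  · rcases coeff_abs n hS (Nat.succ_pos n) with h | h <;> rw [h] <;> norm_num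

/-- the set of the indices with a positive sign -/
noncomputable def plus (n : ℕ) (f : Fin (n + 1) → Bool) : Finset ℕ :=
  (univ.filter fun i : Fin (n + 1) => f i = true).map Fin.valEmbedding

lemma mem_plus {n : ℕ} {f : Fin (n + 1) → Bool} (i : Fin (n + 1)) :
    (i : ℕ) ∈ plus n f ↔ f i = true := by
  unfold plus
  rw [mem_map]
  constructor
  · rintro ⟨j, hj, he⟩
    have : j = i := Fin.ext he
    rw [← this]
    exact (mem_filter.1 hj).2
  · intro h
    exact ⟨i, mem_filter.2 ⟨mem_univ _, h⟩, rfl⟩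

lemma plus_sub (n : ℕ) (f : Fin (n + 1) → Bool) : plus n f ⊆ range (n + 1) := by
  intro i hi
  unfold plus at hi
  obtain ⟨j, _, he⟩ := mem_map.1 hi
  rw [← he]
  exact mem_range.2 j.2

lemma plus_inj (n : ℕ) : Function.Injective (plus n) := by
  intro f f' h
  funext i
  have h1 : f i = true ↔ f' i = true := by
    rw [← mem_plus, ← mem_plus, h]
  cases hf : f i <;> cases hf' : f' i <;> simp_all

lemma map_fam (n : ℕ) (f : Fin (n + 1) → Bool) :
    (fam (base n) 2 (plus n f)).map (Int.castRingHom ℚ) =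
      ∑ i : Fin (n + 1), C (if f i then (1 : ℚ) else -1) * X ^ (i : ℕ) := by
  ext j
  rw [coeff_map, coeff_fam n (plus_sub n f), finsetSum_coeff]
  simp only [coeff_C_mul, coeff_X_pow]
  by_cases hj : j < n + 1
  · rw [if_pos hj, Finset.sum_eq_single (⟨j, hj⟩ : Fin (n + 1))]
    · rw [if_pos rfl, mul_one]
      have h1 := mem_plus (n := n) (f := f) ⟨j, hj⟩
      by_cases h2 : f ⟨j, hj⟩ = true
      · rw [if_pos (h1.2 h2), if_pos h2]
        simp
      · rw [if_neg (fun h => h2 (h1.1 h)), if_neg h2]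
        simp
    · intro i _ hi
      have h2 : ¬ (j = (i : ℕ)) := fun h => hi (Fin.ext h.symm)
      rw [if_neg h2, mul_zero]
    · intro h
      exact absurd (mem_univ _) h
  · rw [if_neg hj, Finset.sum_eq_zero]
    · simp
    · intro i _
      have h2 : ¬ (j = (i : ℕ)) := fun h => hj (by rw [h]; exact i.2)
      rw [if_neg h2, mul_zero]

lemma prim (n : ℕ) (f : Fin (n + 1) → Bool) : (fam (base n) 2 (plus n f)).IsPrimitive := by
  rw [isPrimitive_iff_isUnit_of_C_dvd]
  intro r hr
  have h1 := (C_dvd_iff_dvd_coeff r _).1 hr 0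
  rcases coeff_abs n (plus_sub n f) (Nat.succ_pos n) with h | h
  · rw [h] at h1
    exact isUnit_of_dvd_one h1
  · rw [h, dvd_neg] at h1
    exact isUnit_of_dvd_one h1

lemma irr_iff (n : ℕ) (f : Fin (n + 1) → Bool) :
    Irreducible (fam (base n) 2 (plus n f)) ↔
      Irreducible (∑ i : Fin (n + 1), C (if f i then (1 : ℚ) else -1) * X ^ (i : ℕ)) := by
  rw [← map_fam]
  exact IsPrimitive.Int.irreducible_iff_irreducible_map_cast (prim n f)

open Classical in
lemma count (n : ℕ) :
    (Nat.card {f : Fin (n + 1) → Bool //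
      ¬ Irreducible (∑ i : Fin (n + 1), C (if f i then (1 : ℚ) else -1) * X ^ (i : ℕ))} : ℝ) ≤
      cnt (range (n + 1)) (fun S => ¬ Irreducible (fam (base n) 2 S)) := by
  unfold cnt
  rw [Nat.card_eq_fintype_card, Fintype.card_subtype]
  have h1 : (univ.filter fun f : Fin (n + 1) → Bool =>
      ¬ Irreducible (∑ i : Fin (n + 1), C (if f i then (1 : ℚ) else -1) * X ^ (i : ℕ))).card ≤
      ((range (n + 1)).powerset.filter
        (fun S => ¬ Irreducible (fam (base n) 2 S))).card := by
    apply Finset.card_le_card_of_injOn (plus n)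
    · intro f hf
      have hf' := (mem_filter.1 (mem_coe.1 hf)).2
      exact mem_coe.2 (mem_filter.2 ⟨mem_powerset.2 (plus_sub n f),
        fun h => hf' ((irr_iff n f).1 h)⟩)
    · exact (plus_inj n).injOn
  exact_mod_cast h1

end littlewood_

theorem littlewood : (S_Main → S_Littlewood) := by
  intro hM
  unfold S_Littlewood
  rw [Metric.tendsto_atTop]
  intro ε hε
  obtain ⟨N, hN⟩ := hM (ε / 2) (half_pos hε)
  refine ⟨N, fun n hn => ?_⟩
  have h1 := hN n (range (n + 1)) (littlewood_.base n) 2 hn (littlewood_.good n)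
  have h2 := (littlewood_.count n).trans h1
  rw [card_range] at h2
  have h3 : (0 : ℝ) < 2 ^ (n + 1) := by positivity
  rw [Real.dist_eq, sub_zero, abs_of_nonneg (by positivity), div_lt_iff₀ h3]
  refine h2.trans_lt ?_
  have : ε / 2 < ε := half_lt_self hε
  exact mul_lt_mul_of_pos_right this h3

end Pool.Agent.H589.Irr
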