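import Pool.Agent.H589.Irr.Spec

/-! Few members have a divisor of small degree that is not Kroneckerian. -/

set_option autoImplicit false

open Polynomial Finset

namespace Pool.Agent.H589.Irr.LOW_

theorem cnt_eq (I : Finset ℕ) (Q : Finset ℕ → Prop) [DecidablePred Q] :
    cnt I Q = ((I.powerset.filter Q).card : ℝ) := by
  unfold cnt
  congr

/-- The union bound. -/
theorem cnt_exists (I : Finset ℕ) {β : Type} (F : Finset β) (R : β → Finset ℕ → Prop) :
    cnt I (fun S => ∃ g ∈ F, R g S) ≤ ∑ g ∈ F, cnt I (R g) := by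
  classical
  have h0 : ∑ g ∈ F, cnt I (R g) = ∑ g ∈ F, ((I.powerset.filter (R g)).card : ℝ) :=
    sum_congr rfl fun g _ => cnt_eq I (R g)
  rw [h0, cnt_eq]
  have h1 : (I.powerset.filter fun S => ∃ g ∈ F, R g S) ⊆
      F.biUnion fun g => I.powerset.filter (R g) := by
    intro S hS
    rw [mem_filter] at hS
    obtain ⟨h1, g, hg, h2⟩ := hS
    rw [mem_biUnion]
    exact ⟨g, hg, mem_filter.2 ⟨h1, h2⟩⟩
  have h2 := (card_le_card h1).trans card_biUnion_le
  have h3 : ((I.powerset.filter fun S => ∃ g ∈ F, R g S).card : ℝ) ≤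
      ((∑ g ∈ F, (I.powerset.filter (R g)).card : ℕ) : ℝ) := by exact_mod_cast h2
  rw [Nat.cast_sum] at h3
  exact h3

theorem cnt_mono (I : Finset ℕ) {Q Q' : Finset ℕ → Prop} (h : ∀ S ⊆ I, Q S → Q' S) :
    cnt I Q ≤ cnt I Q' := by
  classical
  rw [cnt_eq, cnt_eq]
  have h1 : I.powerset.filter Q ⊆ I.powerset.filter Q' := by
    intro S hS
    rw [mem_filter] at hS ⊢
    exact ⟨hS.1, h S (mem_powerset.1 hS.1) hS.2⟩
  exact_mod_cast card_le_card h1

theorem arith {M K n : ℕ} (hM : 5 ≤ M) (hK : K ≤ M) (hn : M ^ 8 ≤ n) :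
    (9 * M + 10) * (M + 1) + K ≤ (n - 1) / (8 * M ^ 2) := by
  rw [Nat.le_div_iff_mul_le (by positivity)]
  have h1 : ((9 * M + 10) * (M + 1) + K) * (8 * M ^ 2) + 1 ≤ M ^ 8 := by
    obtain ⟨a, rfl⟩ := Nat.exists_eq_add_of_le hM
    have h2 : ((9 * (5 + a) + 10) * ((5 + a) + 1) + K) ≤ 39 * (5 + a) ^ 2 := by nlinarith
    have h3 : 625 ≤ (5 + a) ^ 4 := by
      calc 625 = 5 ^ 4 := by norm_num
        _ ≤ (5 + a) ^ 4 := Nat.pow_le_pow_left (by omega) 4
    calc ((9 * (5 + a) + 10) * ((5 + a) + 1) + K) * (8 * (5 + a) ^ 2) + 1 ≤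
          39 * (5 + a) ^ 2 * (8 * (5 + a) ^ 2) + (5 + a) ^ 4 := by
          gcongr
          omega
      _ = 313 * (5 + a) ^ 4 := by ring
      _ ≤ (5 + a) ^ 4 * (5 + a) ^ 4 := Nat.mul_le_mul_right _ (by omega)
      _ = (5 + a) ^ 8 := by ring
  omega

theorem root_of (hH : S_House) {f g : ℤ[X]} (hg : g ∣ f) (hlc : |f.leadingCoeff| = 1)
    (h1 : 1 ≤ g.natDegree) {z : ℂ} (hz : aeval z g = 0) (hz0 : z ≠ 0)
    (hz1 : ∀ k : ℕ, 0 < k → z ^ k ≠ 1) :
    ∃ w : ℂ, aeval w g = 0 ∧ 2 ≤ ‖w‖ ^ (8 * g.natDegree ^ 2) := by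
  obtain ⟨h, rfl⟩ := hg
  rw [leadingCoeff_mul, abs_mul] at hlc
  have hlg : |g.leadingCoeff| = 1 := Int.eq_one_of_mul_eq_one_right (abs_nonneg _) hlc
  have hg0 : g ≠ 0 := by
    rintro rfl
    simp at h1
  set u : ℤ := g.leadingCoeff with hu
  have huu : u * u = 1 := by
    rcases (abs_eq (zero_le_one)).1 hlg with h2 | h2 <;> rw [h2] <;> norm_num
  have hu0 : u ≠ 0 := by
    intro h2
    rw [h2] at huu
    norm_num at huu
  set g' : ℤ[X] := C u * g with hg'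
  have hmon : g'.Monic := by
    unfold Monic
    rw [hg', leadingCoeff_mul, leadingCoeff_C, ← hu, huu]
  have hdeg : g'.natDegree = g.natDegree := by
    rw [hg', natDegree_C_mul hu0]
  have hg'0 : g' ≠ 0 := hmon.ne_zero
  have hmap0 : g'.map (Int.castRingHom ℂ) ≠ 0 := (Polynomial.map_ne_zero_iff
    (Int.castRingHom ℂ).injective_int).2 hg'0
  have hroots : ∀ w : ℂ, w ∈ (g'.map (Int.castRingHom ℂ)).roots ↔ aeval w g = 0 := by
    intro w
    rw [mem_roots hmap0, IsRoot.def, eval_map, hg', eval₂_mul, eval₂_C, mul_eq_zero]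
    have h3 : (Int.castRingHom ℂ) u ≠ 0 := by
      simpa using hu0
    constructor
    · rintro (h4 | h4)
      · exact absurd h4 h3
      · exact h4
    · intro h4
      exact Or.inr h4
  by_contra hcon
  push Not at hcon
  have h2 := hH g' hmon (by rw [hdeg]; exact h1) (fun w hw => by
    rw [hdeg]
    exact hcon w ((hroots w).1 hw)) z ((hroots z).2 hz)
  rcases h2 with h2 | ⟨k, hk, h2⟩
  · exact hz0 h2
  · exact hz1 k hk h2

end Pool.Agent.H589.Irr.LOW_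

namespace Pool.Agent.H589.Irr

open LOW_

theorem low : S_House → S_Big → S_Box → S_Low := by
  classical
  intro hH hBig hBox ε hε
  obtain ⟨K, hK⟩ := exists_pow_lt_of_lt_one hε (by norm_num : (1 / 2 : ℝ) < 1)
  refine ⟨(max K 5) ^ 8, fun n I P c hn hG => ?_⟩
  obtain ⟨hc, hI, hS⟩ := hG
  -- the bound for the degree
  set M : ℕ := Nat.findGreatest (fun m => m ^ 8 ≤ n) n with hM
  have hM8 : M ^ 8 ≤ n := Nat.findGreatest_spec (P := fun m => m ^ 8 ≤ n) (Nat.zero_le n) (by simp)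
  have hle : ∀ m : ℕ, m ^ 8 ≤ n → m ≤ M := fun m hm =>
    Nat.le_findGreatest ((Nat.le_self_pow (by norm_num) m).trans hm) hm
  have hMK : max K 5 ≤ M := hle _ hn
  have hM5 : 5 ≤ M := (le_max_right _ _).trans hMK
  have hMK' : K ≤ M := (le_max_left _ _).trans hMK
  have hnM : n + 1 ≤ (M + 1) ^ 8 := by
    by_contra h
    push Not at h
    have := hle (M + 1) (by omega)
    omega
  -- the divisors
  set B : ℝ := √((n : ℝ) + 1) with hB
  have hB1 : 1 ≤ B := by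
    rw [hB, Real.one_le_sqrt]
    have : (0 : ℝ) ≤ n := Nat.cast_nonneg n
    linarith
  have hfin : Set.Finite {p : ℤ[X] | p.natDegree ≤ M ∧
      (p.map (Int.castRingHom ℂ)).mahlerMeasure ≤ B} := by
    have h := Polynomial.finite_mahlerMeasure_le M ⟨B, by linarith⟩
    exact h
  set F : Finset ℤ[X] := hfin.toFinset with hF
  have hFcard : (F.card : ℝ) ≤ (2 ^ (M + 2) * B) ^ (M + 1) := by
    apply hBox M B hB1 F
    intro g hg
    rw [hF, Set.Finite.mem_toFinset] at hg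
    exact hg
  set R : ℤ[X] → Finset ℕ → Prop := fun g S =>
    g ∣ fam P c S ∧ ∃ w : ℂ, aeval w g = 0 ∧ 2 ≤ ‖w‖ ^ (8 * M ^ 2) with hR
  have hk0 : 0 < 8 * M ^ 2 := by positivity
  have hRb : ∀ g ∈ F, cnt I (R g) ≤ 2 ^ I.card / 2 ^ ((n - 1) / (8 * M ^ 2)) := by
    intro g _
    by_cases h : ∃ w : ℂ, aeval w g = 0 ∧ 2 ≤ ‖w‖ ^ (8 * M ^ 2)
    · obtain ⟨w, hw1, hw2⟩ := h
      refine (cnt_mono I fun S _ hQ => ?_).trans (hBig n I hI P c hc _ w hk0 hw2)
      obtain ⟨⟨q, hq⟩, -⟩ := hQ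
      rw [hq, map_mul, hw1, zero_mul]
    · have h1 : cnt I (R g) = 0 := by
        rw [cnt_eq, Nat.cast_eq_zero, card_eq_zero, filter_eq_empty_iff]
        intro S _ hQ
        exact h hQ.2
      rw [h1]
      positivity
  have hstep : cnt I (fun S => ∃ g : ℤ[X], g ∣ fam P c S ∧ 1 ≤ g.natDegree ∧ g.natDegree ^ 8 ≤ n ∧
      ∃ z : ℂ, aeval z g = 0 ∧ z ≠ 0 ∧ ∀ k : ℕ, 0 < k → z ^ k ≠ 1) ≤
      cnt I (fun S => ∃ g ∈ F, R g S) := by
    refine cnt_mono I fun S hSI hQ => ?_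
    obtain ⟨g, hg, h1, h8, z, hz, hz0, hz1⟩ := hQ
    obtain ⟨hd, hlc, h0, hmm⟩ := hS S hSI
    have hgM := hle _ h8
    obtain ⟨w, hw1, hw2⟩ := root_of hH hg hlc h1 hz hz0 hz1
    refine ⟨g, ?_, hg, w, hw1, ?_⟩
    · rw [hF, Set.Finite.mem_toFinset]
      refine ⟨hgM, ?_⟩
      obtain ⟨q, hq⟩ := hg
      rw [hq, Polynomial.map_mul, mahlerMeasure_mul] at hmm
      have hq0 : q ≠ 0 := by
        rintro rfl
        rw [hq, mul_zero] at hlc
        simp at hlc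
      have h2 := Polynomial.one_le_mahlerMeasure_of_ne_zero hq0
      have h3 := (g.map (Int.castRingHom ℂ)).mahlerMeasure_nonneg
      nlinarith
    · have h2 : 1 ≤ ‖w‖ := by
        by_contra h3
        push Not at h3
        have h4 := pow_le_one₀ (n := 8 * g.natDegree ^ 2) (norm_nonneg w) h3.le
        linarith
      refine hw2.trans (pow_le_pow_right₀ h2 ?_)
      gcongr
  refine hstep.trans ((cnt_exists I F R).trans ((sum_le_card_nsmul _ _ _ hRb).trans ?_))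
  rw [nsmul_eq_mul]
  -- the final estimate
  have hBn : B ≤ 2 ^ (8 * (M + 1)) := by
    have h1 : B ≤ (n : ℝ) + 1 := by
      rw [hB, Real.sqrt_le_left (by positivity)]
      have : (0 : ℝ) ≤ n := Nat.cast_nonneg n
      nlinarith
    refine h1.trans ?_
    have h2 : n + 1 ≤ 2 ^ (8 * (M + 1)) := by
      refine hnM.trans ?_
      rw [mul_comm 8, pow_mul]
      exact Nat.pow_le_pow_left (Nat.lt_two_pow_self).le 8
    exact_mod_cast h2
  have h3 : (F.card : ℝ) ≤ 2 ^ ((9 * M + 10) * (M + 1)) := by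
    refine hFcard.trans ?_
    rw [pow_mul]
    refine pow_le_pow_left₀ (by positivity) ?_ _
    calc 2 ^ (M + 2) * B ≤ 2 ^ (M + 2) * 2 ^ (8 * (M + 1)) := by gcongr
      _ = 2 ^ (9 * M + 10) := by
        rw [← pow_add]
        congr 1
        ring
  have h4 := arith hM5 hMK' hM8
  have h5 : (2 : ℝ) ^ ((9 * M + 10) * (M + 1)) * 2 ^ K ≤ 2 ^ ((n - 1) / (8 * M ^ 2)) := by
    rw [← pow_add]
    exact pow_le_pow_right₀ (by norm_num) h4
  have h6 : (F.card : ℝ) / 2 ^ ((n - 1) / (8 * M ^ 2)) ≤ (1 / 2) ^ K := by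
    rw [div_le_iff₀ (by positivity), one_div, inv_pow, inv_mul_eq_div, le_div_iff₀ (by positivity)]
    exact (mul_le_mul_of_nonneg_right h3 (by positivity)).trans h5
  calc (F.card : ℝ) * (2 ^ I.card / 2 ^ ((n - 1) / (8 * M ^ 2))) =
        ((F.card : ℝ) / 2 ^ ((n - 1) / (8 * M ^ 2))) * 2 ^ I.card := by ring
    _ ≤ (1 / 2) ^ K * 2 ^ I.card := by gcongr
    _ ≤ ε * 2 ^ I.card := by gcongr

end Pool.Agent.H589.Irr
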