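import Pool.Agent.H589.Irr.Spec

/-!
# Few members of the family are reducible
-/

set_option autoImplicit false

open Polynomial Finset

namespace Pool.Agent.H589.Irr

namespace main_

lemma cnt_nonneg (I : Finset ℕ) (Q : Finset ℕ → Prop) : 0 ≤ cnt I Q := Nat.cast_nonneg _

lemma cnt_eq (I : Finset ℕ) (Q : Finset ℕ → Prop) [DecidablePred Q] :
    cnt I Q = ((I.powerset.filter Q).card : ℝ) := by
  unfold cnt
  congr!

lemma aeval_eq (z : ℂ) (g : ℤ[X]) : aeval z g = (g.map (Int.castRingHom ℂ)).eval z := by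
  rw [eval_map, aeval_def]
  rfl

lemma cnt_mono (I : Finset ℕ) (Q Q' : Finset ℕ → Prop) (h : ∀ S ⊆ I, Q S → Q' S) :
    cnt I Q ≤ cnt I Q' := by
  classical
  rw [cnt_eq, cnt_eq]
  have : (I.powerset.filter Q).card ≤ (I.powerset.filter Q').card := by
    apply card_le_card
    intro S hS
    rw [mem_filter, mem_powerset] at hS ⊢
    exact ⟨hS.1, h S hS.1 hS.2⟩
  exact_mod_cast this

lemma cnt_or (I : Finset ℕ) (Q Q' : Finset ℕ → Prop) :
    cnt I (fun S => Q S ∨ Q' S) ≤ cnt I Q + cnt I Q' := by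
  classical
  rw [cnt_eq, cnt_eq, cnt_eq]
  have : (I.powerset.filter (fun S => Q S ∨ Q' S)).card ≤
      (I.powerset.filter Q).card + (I.powerset.filter Q').card := by
    rw [filter_or]
    exact card_union_le _ _
  exact_mod_cast this

lemma cnt_exists (I : Finset ℕ) (Z : Finset ℂ) (Q : ℂ → Finset ℕ → Prop) :
    cnt I (fun S => ∃ z ∈ Z, Q z S) ≤ ∑ z ∈ Z, cnt I (Q z) := by
  classical
  have : (I.powerset.filter (fun S => ∃ z ∈ Z, Q z S)).card ≤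
      ∑ z ∈ Z, (I.powerset.filter (Q z)).card := by
    refine (card_le_card ?_).trans card_biUnion_le
    intro S hS
    rw [mem_filter] at hS
    obtain ⟨z, hz, hq⟩ := hS.2
    rw [mem_biUnion]
    exact ⟨z, hz, mem_filter.mpr ⟨hS.1, hq⟩⟩
  have e : ∀ z ∈ Z, cnt I (Q z) = ((I.powerset.filter (Q z)).card : ℝ) := fun z _ => cnt_eq _ _
  rw [cnt_eq, sum_congr rfl e]
  exact_mod_cast this

/-- the finite set of roots of unity that are roots of polynomials of degree `≤ M₀`, `M = 1`. -/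
lemma exists_Z (M₀ : ℕ) : ∃ Z : Finset ℂ, (∀ z ∈ Z, ∃ k : ℕ, 0 < k ∧ z ^ k = 1) ∧
    ∀ g : ℤ[X], g ≠ 0 → g.natDegree ≤ M₀ → (g.map (Int.castRingHom ℂ)).mahlerMeasure ≤ 1 →
    ∀ z : ℂ, aeval z g = 0 → (∃ k : ℕ, 0 < k ∧ z ^ k = 1) → z ∈ Z := by
  classical
  have hfin := finite_mahlerMeasure_le M₀ 1
  refine ⟨(hfin.toFinset.biUnion fun g => (g.map (Int.castRingHom ℂ)).roots.toFinset).filter
    (fun z => ∃ k : ℕ, 0 < k ∧ z ^ k = 1), ?_, ?_⟩
  · intro z hz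
    exact (mem_filter.mp hz).2
  · intro g hg hd hM z hz hk
    rw [mem_filter, mem_biUnion]
    refine ⟨⟨g, ?_, ?_⟩, hk⟩
    · rw [Set.Finite.mem_toFinset]
      exact ⟨hd, by simpa using hM⟩
    · rw [Multiset.mem_toFinset, mem_roots']
      refine ⟨?_, ?_⟩
      · rw [Ne, Polynomial.map_eq_zero_iff (RingHom.injective_int _)]
        exact hg
      · rw [IsRoot.def, ← aeval_eq]
        exact hz

/-- the inequality for large `n`. -/
lemma ineq (n a b : ℕ) (hn : 2 ^ 32 ≤ n) (ha : n ≤ a ^ 8) (hb : n ≤ 2 * b) :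
    √((n : ℝ) + 1) ≤ (a : ℝ) ^ (1 / 2 - 1 / 8 : ℝ) * (b : ℝ) ^ (1 / 2 - 1 / 64 : ℝ) := by
  have hn0 : (2 : ℝ) ^ 32 ≤ n := by exact_mod_cast hn
  have hn1 : (0 : ℝ) < n := lt_of_lt_of_le (by norm_num) hn0
  have ha0 : (0 : ℝ) ≤ a := Nat.cast_nonneg a
  have h1 : (n : ℝ) ^ (3 / 64 : ℝ) ≤ (a : ℝ) ^ (1 / 2 - 1 / 8 : ℝ) := by
    have h2 : (n : ℝ) ≤ (a : ℝ) ^ (8 : ℕ) := by exact_mod_cast ha
    calc (n : ℝ) ^ (3 / 64 : ℝ) ≤ ((a : ℝ) ^ (8 : ℕ)) ^ (3 / 64 : ℝ) :=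
          Real.rpow_le_rpow hn1.le h2 (by norm_num)
      _ = (a : ℝ) ^ (1 / 2 - 1 / 8 : ℝ) := by
          rw [← Real.rpow_natCast, ← Real.rpow_mul ha0]; norm_num
  have h3 : ((n : ℝ) / 2) ^ (31 / 64 : ℝ) ≤ (b : ℝ) ^ (1 / 2 - 1 / 64 : ℝ) := by
    have h4 : (n : ℝ) / 2 ≤ b := by
      have : (n : ℝ) ≤ 2 * b := by exact_mod_cast hb
      linarith
    have h5 : (1 / 2 - 1 / 64 : ℝ) = 31 / 64 := by norm_num
    rw [h5]
    exact Real.rpow_le_rpow (by positivity) h4 (by norm_num)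
  have h6 : √((n : ℝ) + 1) ≤ (n : ℝ) ^ (3 / 64 : ℝ) * ((n : ℝ) / 2) ^ (31 / 64 : ℝ) := by
    have e1 : (n : ℝ) ^ (3 / 64 : ℝ) * ((n : ℝ) / 2) ^ (31 / 64 : ℝ) =
        (n : ℝ) ^ (1 / 2 : ℝ) * ((n : ℝ) ^ (1 / 32 : ℝ) / (2 : ℝ) ^ (31 / 64 : ℝ)) := by
      rw [Real.div_rpow hn1.le (by norm_num)]
      have : (n : ℝ) ^ (3 / 64 : ℝ) * (n : ℝ) ^ (31 / 64 : ℝ) =
          (n : ℝ) ^ (1 / 2 : ℝ) * (n : ℝ) ^ (1 / 32 : ℝ) := by
        rw [← Real.rpow_add hn1, ← Real.rpow_add hn1]; norm_num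
      rw [← mul_div_assoc, this, mul_div_assoc]
    have e2 : (2 : ℝ) ≤ (n : ℝ) ^ (1 / 32 : ℝ) := by
      calc (2 : ℝ) = ((2 : ℝ) ^ (32 : ℕ)) ^ (1 / 32 : ℝ) := by
            rw [← Real.rpow_natCast, ← Real.rpow_mul (by norm_num)]; norm_num
        _ ≤ (n : ℝ) ^ (1 / 32 : ℝ) := Real.rpow_le_rpow (by positivity) hn0 (by norm_num)
    have e3 : (2 : ℝ) ^ (31 / 64 : ℝ) ≤ (2 : ℝ) ^ (1 / 2 : ℝ) :=
      Real.rpow_le_rpow_of_exponent_le (by norm_num) (by norm_num)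
    have e4 : (2 : ℝ) ^ (1 / 2 : ℝ) = √2 := (Real.sqrt_eq_rpow 2).symm
    have e5 : √2 ≤ (n : ℝ) ^ (1 / 32 : ℝ) / (2 : ℝ) ^ (31 / 64 : ℝ) := by
      rw [le_div_iff₀ (by positivity)]
      calc √2 * (2 : ℝ) ^ (31 / 64 : ℝ) ≤ √2 * √2 := by
            apply mul_le_mul_of_nonneg_left _ (Real.sqrt_nonneg _)
            rw [← e4]; exact e3
        _ = 2 := Real.mul_self_sqrt (by norm_num)
        _ ≤ _ := e2
    rw [e1, ← Real.sqrt_eq_rpow]
    calc √((n : ℝ) + 1) ≤ √((n : ℝ) * 2) := Real.sqrt_le_sqrt (by linarith)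
      _ = √(n : ℝ) * √2 := Real.sqrt_mul hn1.le 2
      _ ≤ _ := mul_le_mul_of_nonneg_left e5 (Real.sqrt_nonneg _)
  calc √((n : ℝ) + 1) ≤ (n : ℝ) ^ (3 / 64 : ℝ) * ((n : ℝ) / 2) ^ (31 / 64 : ℝ) := h6
    _ ≤ _ := mul_le_mul h1 h3 (by positivity) (by positivity)

lemma abs_lc (a b : ℤ[X]) (h : |(a * b).leadingCoeff| = 1) :
    |a.leadingCoeff| = 1 ∧ |b.leadingCoeff| = 1 := by
  rw [leadingCoeff_mul, abs_mul] at h
  have h1 : |a.leadingCoeff| ∣ 1 := Dvd.intro _ h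
  have h2 : |b.leadingCoeff| ∣ 1 := Dvd.intro_left _ h
  constructor
  · have := Int.eq_one_or_neg_one_of_mul_eq_one h
    rcases this with h | h
    · exact h
    · have := abs_nonneg a.leadingCoeff; omega
  · rw [mul_comm] at h
    have := Int.eq_one_or_neg_one_of_mul_eq_one h
    rcases this with h | h
    · exact h
    · have := abs_nonneg b.leadingCoeff; omega

lemma deg_pos (a : ℤ[X]) (ha : ¬ IsUnit a) (hl : |a.leadingCoeff| = 1) : 1 ≤ a.natDegree := by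
  by_contra h
  have h0 : a.natDegree = 0 := by omega
  apply ha
  have : IsUnit a.leadingCoeff := by
    rw [Int.isUnit_iff]
    rcases abs_choice a.leadingCoeff with h | h <;> omega
  rw [eq_C_of_natDegree_eq_zero h0]
  rw [leadingCoeff, h0] at this
  exact this.map C

lemma mm_one (a : ℤ[X]) (hl : |a.leadingCoeff| = 1)
    (h : ∀ z : ℂ, aeval z a = 0 → z = 0 ∨ ∃ k : ℕ, 0 < k ∧ z ^ k = 1) :
    (a.map (Int.castRingHom ℂ)).mahlerMeasure = 1 := by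
  have ha0 : a ≠ 0 := by
    rintro rfl; simp at hl
  rw [mahlerMeasure_eq_leadingCoeff_mul_prod_roots]
  have h1 : ‖(a.map (Int.castRingHom ℂ)).leadingCoeff‖ = 1 := by
    rw [leadingCoeff_map_of_injective (RingHom.injective_int _)]
    rw [eq_intCast, Complex.norm_intCast]
    exact_mod_cast hl
  rw [h1, one_mul]
  apply Multiset.prod_eq_one
  intro x hx
  obtain ⟨z, hz, rfl⟩ := Multiset.mem_map.mp hx
  apply max_eq_left
  have hz' : aeval z a = 0 := by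
    have := (mem_roots'.mp hz).2
    rw [IsRoot.def, ← aeval_eq] at this
    exact this
  rcases h z hz' with h0 | ⟨k, hk, hz1⟩
  · rw [h0]; simp
  · have : ‖z‖ ^ k = 1 := by rw [← norm_pow, hz1, norm_one]
    exact ((pow_eq_one_iff_of_nonneg (norm_nonneg z) (by omega)).mp this).le

/-- the trichotomy for one polynomial. -/
lemma pointwise (M₀ M₁ : ℕ) (Z : Finset ℂ)
    (hZ : ∀ g : ℤ[X], g ≠ 0 → g.natDegree ≤ M₀ → (g.map (Int.castRingHom ℂ)).mahlerMeasure ≤ 1 →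
      ∀ z : ℂ, aeval z g = 0 → (∃ k : ℕ, 0 < k ∧ z ^ k = 1) → z ∈ Z)
    (n : ℕ) (hn1 : 2 ^ 32 ≤ n) (hn2 : M₀ ^ 8 ≤ n) (hn3 : 2 * M₁ ≤ n)
    (f : ℤ[X]) (hdeg : f.natDegree = n) (hlc : |f.leadingCoeff| = 1) (h0 : f.coeff 0 ≠ 0)
    (hM : (f.map (Int.castRingHom ℂ)).mahlerMeasure ≤ √((n : ℝ) + 1))
    (hf : ¬ Irreducible f) :
    (∃ g : ℤ[X], g ∣ f ∧ M₀ ≤ g.natDegree ∧ g.natDegree ≤ n ∧
      (g.map (Int.castRingHom ℂ)).mahlerMeasure ≤ (g.natDegree : ℝ) ^ (1 / 2 - 1 / 8 : ℝ)) ∨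
    (∃ g : ℤ[X], g ∣ f ∧ M₁ ≤ g.natDegree ∧ g.natDegree ≤ n ∧
      (g.map (Int.castRingHom ℂ)).mahlerMeasure ≤ (g.natDegree : ℝ) ^ (1 / 2 - 1 / 64 : ℝ)) ∨
    (∃ g : ℤ[X], g ∣ f ∧ 1 ≤ g.natDegree ∧ g.natDegree ^ 8 ≤ n ∧
      ∃ z : ℂ, aeval z g = 0 ∧ z ≠ 0 ∧ ∀ k : ℕ, 0 < k → z ^ k ≠ 1) ∨
    (∃ z ∈ Z, aeval z f = 0) := by
  have hf0 : f ≠ 0 := by
    rintro rfl; simp at hlc
  have hnu : ¬ IsUnit f := by
    intro h
    have := natDegree_eq_zero_of_isUnit h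
    omega
  obtain ⟨a, b, hab, ha, hb⟩ : ∃ a b : ℤ[X], f = a * b ∧ ¬ IsUnit a ∧ ¬ IsUnit b := by
    rw [irreducible_iff] at hf
    push Not at hf
    obtain ⟨a, b, h1, h2, h3⟩ := hf hnu
    exact ⟨a, b, h1, h2, h3⟩
  wlog hle : a.natDegree ≤ b.natDegree generalizing a b
  · exact this b a (by rw [hab, mul_comm]) hb ha (by omega)
  obtain ⟨hla, hlb⟩ := abs_lc a b (by rw [← hab]; exact hlc)
  have hda := deg_pos a ha hla
  have ha0 : a ≠ 0 := by rintro rfl; simp at hla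
  have hb0 : b ≠ 0 := by rintro rfl; simp at hlb
  have hsum : a.natDegree + b.natDegree = n := by
    rw [← natDegree_mul ha0 hb0, ← hab, hdeg]
  have hadvd : a ∣ f := ⟨b, hab⟩
  have hbdvd : b ∣ f := ⟨a, by rw [hab, mul_comm]⟩
  have hmul : (a.map (Int.castRingHom ℂ)).mahlerMeasure *
      (b.map (Int.castRingHom ℂ)).mahlerMeasure ≤ √((n : ℝ) + 1) := by
    rw [← mahlerMeasure_mul, ← Polynomial.map_mul, ← hab]; exact hM
  rcases le_or_gt n (a.natDegree ^ 8) with hbig | hsmall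
  · have hM0a : M₀ ≤ a.natDegree := by
      by_contra h
      have : a.natDegree ^ 8 < M₀ ^ 8 := Nat.pow_lt_pow_left (by omega) (by norm_num)
      omega
    by_cases hMa : (a.map (Int.castRingHom ℂ)).mahlerMeasure ≤
        (a.natDegree : ℝ) ^ (1 / 2 - 1 / 8 : ℝ)
    · exact Or.inl ⟨a, hadvd, hM0a, by omega, hMa⟩
    · right; left
      refine ⟨b, hbdvd, by omega, by omega, ?_⟩
      rw [not_le] at hMa
      have hpa : (0 : ℝ) < (a.natDegree : ℝ) ^ (1 / 2 - 1 / 8 : ℝ) :=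
        Real.rpow_pos_of_pos (by exact_mod_cast hda) _
      have h1 := ineq n a.natDegree b.natDegree hn1 hbig (by omega)
      have h2 : (a.natDegree : ℝ) ^ (1 / 2 - 1 / 8 : ℝ) *
          (b.map (Int.castRingHom ℂ)).mahlerMeasure ≤
          (a.natDegree : ℝ) ^ (1 / 2 - 1 / 8 : ℝ) * (b.natDegree : ℝ) ^ (1 / 2 - 1 / 64 : ℝ) := by
        refine le_trans ?_ (hmul.trans h1)
        exact mul_le_mul_of_nonneg_right hMa.le (mahlerMeasure_nonneg _)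
      exact le_of_mul_le_mul_left h2 hpa
  · by_cases hex : ∃ z : ℂ, aeval z a = 0 ∧ z ≠ 0 ∧ ∀ k : ℕ, 0 < k → z ^ k ≠ 1
    · exact Or.inr (Or.inr (Or.inl ⟨a, hadvd, hda, hsmall.le, hex⟩))
    · push Not at hex
      have hall : ∀ z : ℂ, aeval z a = 0 → z = 0 ∨ ∃ k : ℕ, 0 < k ∧ z ^ k = 1 := by
        intro z hz
        by_cases h : z = 0
        · exact Or.inl h
        · exact Or.inr (hex z hz h)
      have hM1 := mm_one a hla hall
      rcases le_or_gt M₀ a.natDegree with hge | hlt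
      · left
        refine ⟨a, hadvd, hge, by omega, ?_⟩
        rw [hM1]
        exact Real.one_le_rpow (by exact_mod_cast hda) (by norm_num)
      · right; right; right
        obtain ⟨z, hz⟩ : ∃ z : ℂ, aeval z a = 0 := by
          have hdeg' : (a.map (Int.castRingHom ℂ)).degree ≠ 0 := by
            rw [degree_map_eq_of_injective (RingHom.injective_int _)]
            intro h
            have := natDegree_eq_zero_iff_degree_le_zero.mpr h.le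
            omega
          obtain ⟨z, hz⟩ := IsAlgClosed.exists_root _ hdeg'
          refine ⟨z, ?_⟩
          rw [IsRoot.def, ← aeval_eq] at hz
          exact hz
        have hfz : aeval z f = 0 := by rw [hab, map_mul, hz, zero_mul]
        have hz0 : z ≠ 0 := by
          rintro rfl
          apply h0
          have : (algebraMap ℤ ℂ) (f.coeff 0) = 0 := by
            rw [← hfz]
            simp [aeval_def, eval₂_at_zero, coeff_zero_eq_eval_zero]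
          simpa using this
        rcases hall z hz with h | h
        · exact absurd h hz0
        · exact ⟨z, hZ a ha0 hlt.le hM1.le z hz h, hfz⟩

end main_

open main_ in
theorem main (hSmall : S_Small) (hLow : S_Low) (hUnity : S_Unity) : S_Main := by
  intro ε hε
  obtain ⟨M₀, hM₀⟩ := hSmall (1 / 8) (by norm_num) (ε / 4) (by positivity)
  obtain ⟨M₁, hM₁⟩ := hSmall (1 / 64) (by norm_num) (ε / 4) (by positivity)
  obtain ⟨N₁, hN₁⟩ := hLow (ε / 4) (by positivity)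
  obtain ⟨Z, hZ1, hZ2⟩ := exists_Z M₀
  have hNz : ∀ z ∈ Z, ∃ N : ℕ, ∀ (n : ℕ) (I : Finset ℕ), N ≤ n → Ioo 0 n ⊆ I →
      ∀ (P : ℤ[X]) (c : ℤ), c ≠ 0 →
      cnt I (fun S => aeval z (fam P c S) = 0) ≤ (ε / (4 * (Z.card + 1))) * 2 ^ I.card := by
    intro z hz
    obtain ⟨k, hk, hzk⟩ := hZ1 z hz
    exact hUnity k z hk hzk _ (by positivity)
  choose! Nz hNz using hNz
  refine ⟨max (max (2 ^ 32) (M₀ ^ 8)) (max (2 * M₁) (max N₁ (Z.sup Nz))), ?_⟩
  intro n I P c hn hG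
  have hn1 : 2 ^ 32 ≤ n := le_trans (le_trans (le_max_left _ _) (le_max_left _ _)) hn
  have hn2 : M₀ ^ 8 ≤ n := le_trans (le_trans (le_max_right _ _) (le_max_left _ _)) hn
  have hn3 : 2 * M₁ ≤ n := le_trans (le_trans (le_max_left _ _) (le_max_right _ _)) hn
  have hn4 : N₁ ≤ n :=
    le_trans (le_trans (le_trans (le_max_left _ _) (le_max_right _ _)) (le_max_right _ _)) hn
  have hn5 : Z.sup Nz ≤ n :=
    le_trans (le_trans (le_trans (le_max_right _ _) (le_max_right _ _)) (le_max_right _ _)) hn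
  obtain ⟨hc, hI, hS⟩ := hG
  have hstep : cnt I (fun S => ¬ Irreducible (fam P c S)) ≤
      cnt I (fun S => (∃ g : ℤ[X], g ∣ fam P c S ∧ M₀ ≤ g.natDegree ∧ g.natDegree ≤ n ∧
        (g.map (Int.castRingHom ℂ)).mahlerMeasure ≤ (g.natDegree : ℝ) ^ (1 / 2 - 1 / 8 : ℝ))) +
      (cnt I (fun S => (∃ g : ℤ[X], g ∣ fam P c S ∧ M₁ ≤ g.natDegree ∧ g.natDegree ≤ n ∧
        (g.map (Int.castRingHom ℂ)).mahlerMeasure ≤ (g.natDegree : ℝ) ^ (1 / 2 - 1 / 64 : ℝ))) +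
      (cnt I (fun S => (∃ g : ℤ[X], g ∣ fam P c S ∧ 1 ≤ g.natDegree ∧ g.natDegree ^ 8 ≤ n ∧
        ∃ z : ℂ, aeval z g = 0 ∧ z ≠ 0 ∧ ∀ k : ℕ, 0 < k → z ^ k ≠ 1)) +
      ∑ z ∈ Z, cnt I (fun S => aeval z (fam P c S) = 0))) := by
    refine (cnt_mono I _ _ ?_).trans ((cnt_or I _ _).trans (add_le_add le_rfl
      ((cnt_or I _ _).trans (add_le_add le_rfl ((cnt_or I _ _).trans (add_le_add le_rfl
      (cnt_exists I Z _)))))))
    intro S hSI hirr
    obtain ⟨h1, h2, h3, h4⟩ := hS S hSI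
    exact pointwise M₀ M₁ Z hZ2 n hn1 hn2 hn3 (fam P c S) h1 h2 h3 h4 hirr
  have b1 := hM₀ n I hI P c hc
  have b2 := hM₁ n I hI P c hc
  have b3 := hN₁ n I P c hn4 ⟨hc, hI, hS⟩
  have b4 : ∑ z ∈ Z, cnt I (fun S => aeval z (fam P c S) = 0) ≤ ε / 4 * 2 ^ I.card := by
    calc ∑ z ∈ Z, cnt I (fun S => aeval z (fam P c S) = 0)
        ≤ ∑ _z ∈ Z, (ε / (4 * (Z.card + 1))) * 2 ^ I.card := by
          apply sum_le_sum
          intro z hz
          exact hNz z hz n I ((Finset.le_sup hz).trans hn5) hI P c hc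
      _ = (Z.card / (Z.card + 1)) * (ε / 4 * 2 ^ I.card) := by
          rw [sum_const, nsmul_eq_mul]
          field_simp
      _ ≤ 1 * (ε / 4 * 2 ^ I.card) := by
          apply mul_le_mul_of_nonneg_right _ (by positivity)
          rw [div_le_one (by positivity)]
          linarith
      _ = _ := one_mul _
  linarith

end Pool.Agent.H589.Irr
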