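import Pool.Agent.H589.Irr.Spec

/-!
# Power sums determine a multiset of complex numbers
-/

set_option autoImplicit false

open Polynomial Finset

namespace Pool.Agent.H589.Irr

namespace psum_

theorem exists_fun (R : Multiset ℂ) : ∃ (n : ℕ) (f : Fin n → ℂ), R = (univ : Finset (Fin n)).val.map f := by
  induction R using Quotient.inductionOn with
  | _ l =>
    refine ⟨l.length, l.get, ?_⟩
    rw [Fin.univ_val_map, List.ofFn_get]
    rfl

theorem newton (R : Multiset ℂ) (k : ℕ) : (k : ℂ) * R.esymm k = (-1) ^ (k + 1) *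
    ∑ a ∈ antidiagonal k with a.1 < k,
      (-1) ^ a.1 * R.esymm a.1 * (R.map (fun z => z ^ a.2)).sum := by
  obtain ⟨n, f, rfl⟩ := exists_fun R
  have h := congrArg (MvPolynomial.aeval f) (MvPolynomial.mul_esymm_eq_sum (Fin n) ℂ k)
  rw [map_mul, map_mul, map_sum, MvPolynomial.aeval_esymm_eq_multiset_esymm, map_natCast,
    map_pow, map_neg, map_one] at h
  rw [h]
  congr 1
  refine sum_congr rfl fun a _ => ?_
  rw [map_mul, map_mul, MvPolynomial.aeval_esymm_eq_multiset_esymm, map_pow, map_neg, map_one]
  congr 1
  rw [MvPolynomial.psum, map_sum, Multiset.map_map]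
  refine sum_congr rfl fun i _ => ?_
  rw [map_pow, MvPolynomial.aeval_X]
  rfl

end psum_

open psum_ in
theorem psum : S_Psum := by
  intro R R' hc h
  have he : ∀ k, k ≤ R.card → R.esymm k = R'.esymm k := by
    intro k
    induction k using Nat.strong_induction_on with
    | _ k ih =>
      intro hk
      rcases Nat.eq_zero_or_pos k with h0 | h0
      · subst h0
        rw [Multiset.esymm, Multiset.esymm, Multiset.powersetCard_zero_left,
          Multiset.powersetCard_zero_left]
      · have hk0 : (k : ℂ) ≠ 0 := by exact_mod_cast h0.ne'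
        refine mul_left_cancel₀ hk0 ?_
        rw [newton R k, newton R' k]
        congr 1
        refine sum_congr rfl fun a ha => ?_
        rw [mem_filter, HasAntidiagonal.mem_antidiagonal] at ha
        rw [ih a.1 ha.2 (by omega), h a.2 (by omega) (by omega)]
  have hp : (R.map fun t => (X - C t : ℂ[X])).prod = (R'.map fun t => (X - C t : ℂ[X])).prod := by
    rw [Multiset.prod_X_sub_X_eq_sum_esymm, Multiset.prod_X_sub_X_eq_sum_esymm, ← hc]
    refine sum_congr rfl fun j hj => ?_
    rw [he j (Nat.lt_succ_iff.1 (mem_range.1 hj))]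
  rw [← Polynomial.roots_multiset_prod_X_sub_C R, hp, Polynomial.roots_multiset_prod_X_sub_C]

end Pool.Agent.H589.Irr
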