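import Pool.Agent.H589.Irr.Spec
import Pool.Agent.H589.Count.Main

/-!
# Few members have a divisor of large degree and small measure
-/

set_option autoImplicit false

open Polynomial Finset Filter

namespace Pool.Agent.H589.Irr

namespace small_

open Pool.Agent.H589.Count (smallSet smallSet_finite counting)

lemma ev_small (C : ℝ) : ∀ᶠ m : ℕ in atTop,
    C * m * Real.log (Real.log m) ^ 2 / Real.log m ≤ Real.log (3 / 2) * m := by
  have hl : 0 < Real.log (3 / 2) := Real.log_pos (by norm_num)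
  have hC : 0 < |C| + 1 := by positivity
  have h1 := (Real.isLittleO_pow_log_id_atTop (n := 2)).bound
    (show (0 : ℝ) < Real.log (3 / 2) / (|C| + 1) by positivity)
  have ht : Tendsto (fun m : ℕ => Real.log (m : ℝ)) atTop atTop :=
    Real.tendsto_log_atTop.comp (tendsto_natCast_atTop_atTop (R := ℝ))
  have h2 := ht.eventually h1
  have h3 := ht.eventually_ge_atTop 1
  filter_upwards [h2, h3] with m hm hm1
  have hL : 0 < Real.log (m : ℝ) := by linarith
  rw [id, Real.norm_eq_abs, Real.norm_eq_abs, abs_of_pos hL, abs_of_nonneg (sq_nonneg _)] at hm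
  have hm0 : (0 : ℝ) ≤ m := Nat.cast_nonneg _
  rw [div_le_iff₀ hL]
  have e1 : C * m * Real.log (Real.log m) ^ 2 ≤ (|C| + 1) * m * Real.log (Real.log m) ^ 2 := by
    apply mul_le_mul_of_nonneg_right _ (sq_nonneg _)
    apply mul_le_mul_of_nonneg_right _ hm0
    linarith [le_abs_self C]
  have e2 : (|C| + 1) * m * Real.log (Real.log m) ^ 2 ≤
      (|C| + 1) * m * (Real.log (3 / 2) / (|C| + 1) * Real.log m) :=
    mul_le_mul_of_nonneg_left hm (by positivity)
  have e3 : (|C| + 1) * m * (Real.log (3 / 2) / (|C| + 1) * Real.log m) =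
      Real.log (3 / 2) * m * Real.log m := by
    field_simp
  linarith

lemma cnt_le_sum {ι : Type} (I : Finset ℕ) (s : Finset ι) (Q : ι → Finset ℕ → Prop)
    (R : Finset ℕ → Prop) (h : ∀ S ⊆ I, R S → ∃ i ∈ s, Q i S) :
    cnt I R ≤ ∑ i ∈ s, cnt I (Q i) := by
  classical
  unfold cnt
  rw [← Nat.cast_sum]
  refine Nat.cast_le.2 ?_
  refine (Finset.card_le_card ?_).trans Finset.card_biUnion_le
  intro S hS
  rw [Finset.mem_filter, Finset.mem_powerset] at hS
  obtain ⟨i, hi, hQ⟩ := h S hS.1 hS.2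
  rw [Finset.mem_biUnion]
  exact ⟨i, hi, by rw [Finset.mem_filter, Finset.mem_powerset]; exact ⟨hS.1, hQ⟩⟩

end small_

open small_ in
open Pool.Agent.H589.Count (smallSet smallSet_finite counting) in
theorem small (hDiv : S_Div) : S_Small := by
  classical
  intro e he ε hε
  obtain ⟨C, hC⟩ := counting e he
  obtain ⟨M₁, hM₁⟩ := eventually_atTop.1 (ev_small C)
  have hpow : ∃ M₂ : ℕ, ((3 : ℝ) / 4) ^ M₂ < ε / 8 :=
    exists_pow_lt_of_lt_one (by positivity) (by norm_num)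
  obtain ⟨M₂, hM₂⟩ := hpow
  refine ⟨max (max M₁ M₂) 16, ?_⟩
  intro n I hI P c hc
  set M₀ : ℕ := max (max M₁ M₂) 16 with hM₀
  have hM1 : M₁ ≤ M₀ := (le_max_left _ _).trans (le_max_left _ _)
  have hM2 : M₂ ≤ M₀ := (le_max_right _ _).trans (le_max_left _ _)
  have hM16 : 16 ≤ M₀ := le_max_right _ _
  -- the sets
  have hfin : ∀ m : ℕ, (smallSet m ((m : ℝ) ^ (1 / 2 - e))).Finite := fun m =>
    smallSet_finite m _
  have hcard : ∀ m : ℕ, M₀ ≤ m → (((hfin m).toFinset.card : ℕ) : ℝ) ≤ (3 / 2) ^ m := by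
    intro m hm
    rw [← Set.ncard_eq_toFinset_card _ (hfin m)]
    refine (hC m (hM16.trans hm)).trans ?_
    have h1 := hM₁ m (hM1.trans hm)
    refine (Real.exp_le_exp.2 h1).trans (le_of_eq ?_)
    rw [mul_comm, Real.exp_nat_mul, Real.exp_log (by norm_num)]
  have hstep : ∀ m ∈ Finset.Ico M₀ (n + 1),
      cnt I (fun S => ∃ g : ℤ[X], g ∣ fam P c S ∧ g.natDegree = m ∧
        (g.map (Int.castRingHom ℂ)).mahlerMeasure ≤ (m : ℝ) ^ (1 / 2 - e)) ≤
      2 ^ I.card * (2 * (3 / 4) ^ m) := by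
    intro m hm
    rw [Finset.mem_Ico] at hm
    have hm1 : 1 ≤ m := by omega
    have h1 : cnt I (fun S => ∃ g : ℤ[X], g ∣ fam P c S ∧ g.natDegree = m ∧
        (g.map (Int.castRingHom ℂ)).mahlerMeasure ≤ (m : ℝ) ^ (1 / 2 - e)) ≤
        ∑ g ∈ (hfin m).toFinset.filter (fun g => g.natDegree = m),
          cnt I (fun S => g ∣ fam P c S) := by
      apply cnt_le_sum
      rintro S _ ⟨g, hg1, hg2, hg3⟩
      refine ⟨g, ?_, hg1⟩
      rw [Finset.mem_filter, Set.Finite.mem_toFinset]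
      refine ⟨⟨?_, hg2.le, hg3⟩, hg2⟩
      rintro rfl
      rw [natDegree_zero] at hg2
      omega
    refine h1.trans ?_
    have h2 : ∀ g ∈ (hfin m).toFinset.filter (fun g => g.natDegree = m),
        cnt I (fun S => g ∣ fam P c S) ≤ 2 ^ I.card / 2 ^ (m - 1) := by
      intro g hg
      rw [Finset.mem_filter] at hg
      have h3 := hDiv n I hI P c hc g (by omega) (by omega)
      rwa [hg.2] at h3
    refine (Finset.sum_le_card_nsmul _ _ _ h2).trans ?_
    rw [nsmul_eq_mul]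
    have h4 : ((((hfin m).toFinset.filter (fun g => g.natDegree = m)).card : ℕ) : ℝ) ≤
        (3 / 2) ^ m := by
      refine le_trans ?_ (hcard m hm.1)
      exact_mod_cast Finset.card_filter_le _ _
    refine (mul_le_mul_of_nonneg_right h4 (by positivity)).trans (le_of_eq ?_)
    obtain ⟨k, rfl⟩ : ∃ k, m = k + 1 := ⟨m - 1, by omega⟩
    rw [Nat.add_sub_cancel]
    have h5 : ((3 : ℝ) / 2) ^ (k + 1) = (3 / 4) ^ (k + 1) * 2 ^ (k + 1) := by
      rw [← mul_pow]; norm_num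
    rw [h5, pow_succ (2 : ℝ) k]
    field_simp
  have hall : cnt I (fun S => ∃ g : ℤ[X], g ∣ fam P c S ∧ M₀ ≤ g.natDegree ∧ g.natDegree ≤ n ∧
      (g.map (Int.castRingHom ℂ)).mahlerMeasure ≤ (g.natDegree : ℝ) ^ (1 / 2 - e)) ≤
      ∑ m ∈ Finset.Ico M₀ (n + 1), cnt I (fun S => ∃ g : ℤ[X], g ∣ fam P c S ∧
        g.natDegree = m ∧ (g.map (Int.castRingHom ℂ)).mahlerMeasure ≤ (m : ℝ) ^ (1 / 2 - e)) := by
    apply cnt_le_sum
    rintro S _ ⟨g, hg1, hg2, hg3, hg4⟩
    exact ⟨g.natDegree, Finset.mem_Ico.2 ⟨hg2, by omega⟩, g, hg1, rfl, hg4⟩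
  refine hall.trans ((Finset.sum_le_sum hstep).trans ?_)
  rw [← Finset.mul_sum, ← Finset.mul_sum, mul_comm ε]
  apply mul_le_mul_of_nonneg_left _ (by positivity)
  have h6 : ∑ i ∈ Finset.Ico M₀ (n + 1), ((3 : ℝ) / 4) ^ i ≤ (3 / 4) ^ M₀ / (1 - 3 / 4) :=
    geom_sum_Ico_le_of_lt_one (by norm_num) (by norm_num)
  have h8 : ((3 : ℝ) / 4) ^ M₀ / (1 - 3 / 4) = 4 * (3 / 4) ^ M₀ := by ring
  rw [h8] at h6
  have h7 : ((3 : ℝ) / 4) ^ M₀ ≤ (3 / 4) ^ M₂ :=
    pow_le_pow_of_le_one (by norm_num) (by norm_num) hM2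
  linarith

end Pool.Agent.H589.Irr
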