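import Pool.Agent.H589.Irr.Spec

set_option autoImplicit false

open Polynomial Finset

namespace Pool.Agent.H589.Irr.trace_

/-- A multiset of cardinality `n` is the multiset of values of a function on `Fin n`. -/
theorem exists_fun {K : Type} (s : Multiset K) (n : ℕ) (h : Multiset.card s = n) :
    ∃ f : Fin n → K, (Finset.univ : Finset (Fin n)).val.map f = s := by
  subst h
  obtain ⟨l, rfl⟩ := Quot.exists_rep s
  refine ⟨fun i : Fin l.length => l.get i, ?_⟩
  have h := Fin.univ_val_map (fun i : Fin l.length => l.get i)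
  rw [List.ofFn_get] at h
  exact h

/-- The power sums of the roots of a monic integer polynomial are integers, the same ones over all
algebraically closed fields. -/
theorem exists_int (g : ℤ[X]) (hg : g.Monic) (k : ℕ) : ∃ N : ℤ,
    ∀ (K : Type) [Field K] [IsAlgClosed K],
      (((g.map (Int.castRingHom K)).roots.map (fun z => z ^ k)).sum : K) = (N : K) := by
  classical
  obtain ⟨P, hP⟩ := MvPolynomial.esymmAlgHom_surjective (σ := Fin g.natDegree) (n := g.natDegree) ℤ
    (by simp) ⟨MvPolynomial.psum (Fin g.natDegree) ℤ k, MvPolynomial.psum_isSymmetric _ _ _⟩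
  have hP' : MvPolynomial.aeval (fun i : Fin g.natDegree =>
      MvPolynomial.esymm (Fin g.natDegree) ℤ (i + 1)) P =
      MvPolynomial.psum (Fin g.natDegree) ℤ k := by
    rw [← MvPolynomial.esymmAlgHom_apply, hP]
  refine ⟨MvPolynomial.aeval (fun i : Fin g.natDegree =>
    (-1 : ℤ) ^ ((i : ℕ) + 1) * g.coeff (g.natDegree - ((i : ℕ) + 1))) P, ?_⟩
  intro K _ _
  have hm : (g.map (Int.castRingHom K)).Monic := hg.map _
  have hd : (g.map (Int.castRingHom K)).natDegree = g.natDegree := hg.natDegree_map _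
  have hs : (g.map (Int.castRingHom K)).Splits := IsAlgClosed.splits _
  have hc : Multiset.card (g.map (Int.castRingHom K)).roots = g.natDegree := by
    rw [← hd]; exact splits_iff_card_roots.1 hs
  obtain ⟨f, hf⟩ := exists_fun _ _ hc
  have h1 : ∀ i : Fin g.natDegree, MvPolynomial.aeval f
      (MvPolynomial.esymm (Fin g.natDegree) ℤ (i + 1)) =
      (((-1 : ℤ) ^ ((i : ℕ) + 1) * g.coeff (g.natDegree - ((i : ℕ) + 1)) : ℤ) : K) := by
    intro i
    rw [MvPolynomial.aeval_esymm_eq_multiset_esymm, hf]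
    have h2 := coeff_eq_esymm_roots_of_splits hs (k := g.natDegree - ((i : ℕ) + 1))
      (by rw [hd]; omega)
    rw [hm.leadingCoeff, hd, coeff_map, one_mul] at h2
    have h3 : g.natDegree - (g.natDegree - ((i : ℕ) + 1)) = (i : ℕ) + 1 := by
      have := i.2; omega
    rw [h3] at h2
    rw [Int.cast_mul, ← eq_intCast (Int.castRingHom K) (g.coeff _), h2, Int.cast_pow, Int.cast_neg,
      Int.cast_one, ← mul_assoc, ← mul_pow]
    simp
  have h4 : MvPolynomial.aeval f (MvPolynomial.psum (Fin g.natDegree) ℤ k) =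
      ((g.map (Int.castRingHom K)).roots.map (fun z => z ^ k)).sum := by
    rw [MvPolynomial.psum, map_sum, ← hf, Multiset.map_map]
    simp [Finset.sum]
  rw [← h4, ← hP', ← AlgHom.comp_apply, MvPolynomial.comp_aeval]
  simp only [h1]
  exact MvPolynomial.aeval_algebraMap_apply (R := ℤ) (A := ℤ) K
    (fun i : Fin g.natDegree => (-1 : ℤ) ^ ((i : ℕ) + 1) * g.coeff (g.natDegree - ((i : ℕ) + 1))) P

end Pool.Agent.H589.Irr.trace_

namespace Pool.Agent.H589.Irr

/-- Traces of powers modulo `p`. -/
theorem trace : S_Trace := by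
  intro g hg p hp k
  have : Fact p.Prime := ⟨hp⟩
  obtain ⟨N, hN⟩ := trace_.exists_int g hg k
  obtain ⟨M, hM⟩ := trace_.exists_int g hg (k * p)
  have h1 := hN (AlgebraicClosure (ZMod p))
  have h2 := hM (AlgebraicClosure (ZMod p))
  have h3 : ((M - N : ℤ) : AlgebraicClosure (ZMod p)) = 0 := by
    have h4 : ((N : ℤ) : AlgebraicClosure (ZMod p)) ^ p = N := by
      have h5 : ((N : ℤ) : ZMod p) ^ p = N := ZMod.pow_card _
      have h6 := congrArg (algebraMap (ZMod p) (AlgebraicClosure (ZMod p))) h5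
      rwa [map_pow, map_intCast] at h6
    have h7 : ((M : ℤ) : AlgebraicClosure (ZMod p)) = (N : AlgebraicClosure (ZMod p)) ^ p := by
      rw [← h2, ← h1, ← frobenius_def, map_multiset_sum, Multiset.map_map]
      simp [frobenius_def, pow_mul, Function.comp_def]
    rw [Int.cast_sub, h7, h4, sub_self]
  obtain ⟨t, ht⟩ := (CharP.intCast_eq_zero_iff (AlgebraicClosure (ZMod p)) p _).1 h3
  refine ⟨t, ?_⟩
  rw [hN ℂ, hM ℂ, ← Int.cast_sub, ht]
  push_cast
  ring

end Pool.Agent.H589.Irr
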