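import Pool.Agent.H589.Irr.Spec

/-!
# Few members of the family vanish at a given root of unity (helper887)
-/

set_option autoImplicit false

open Polynomial Finset

namespace Pool.Agent.H589.Irr

namespace unity_

theorem fiber (I J : Finset ℕ) (hJ : J ⊆ I) (Q : Finset ℕ → Prop) (N : ℝ)
    (h : ∀ A : Finset ℕ, A ⊆ I \ J → cnt J (fun B => Q (A ∪ B)) ≤ N) :
    cnt I Q ≤ 2 ^ I.card / 2 ^ J.card * N := by
  classical
  have h1 : cnt I Q = ∑ A ∈ (I \ J).powerset,
      (((I.powerset.filter Q).filter (fun S => S \ J = A)).card : ℝ) := by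
    unfold cnt
    rw [card_eq_sum_card_fiberwise (f := fun S => S \ J) (t := (I \ J).powerset)]
    · push_cast
      refine sum_congr rfl fun A _ => ?_
      rfl
    · intro S hS
      have hS' := (mem_filter.1 (mem_coe.1 hS)).1
      rw [mem_powerset] at hS'
      exact mem_coe.2 (mem_powerset.2 (sdiff_subset_sdiff hS' (Subset.refl J)))
  have h2 : ∀ A ∈ (I \ J).powerset,
      (((I.powerset.filter Q).filter (fun S => S \ J = A)).card : ℝ) ≤ N := by
    intro A hA
    refine le_trans ?_ (h A (mem_powerset.1 hA))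
    unfold cnt
    refine Nat.cast_le.2 (card_le_card_of_injOn (fun S => S ∩ J) ?_ ?_)
    · intro S hS
      have hS' := mem_filter.1 (mem_coe.1 hS)
      have hS2 := mem_filter.1 hS'.1
      rw [mem_coe, mem_filter, mem_powerset]
      refine ⟨inter_subset_right, ?_⟩
      rw [← hS'.2, sdiff_union_inter]
      exact hS2.2
    · intro S hS S' hS' he
      have h3 := (mem_filter.1 (mem_coe.1 hS)).2
      have h4 := (mem_filter.1 (mem_coe.1 hS')).2
      simp only at he
      rw [← sdiff_union_inter S J, ← sdiff_union_inter S' J, h3, h4, he]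
  rw [h1]
  refine (sum_le_sum h2).trans (le_of_eq ?_)
  rw [sum_const, card_powerset, nsmul_eq_mul, card_sdiff_of_subset hJ]
  push_cast
  rw [pow_sub₀ _ (two_ne_zero) (card_le_card hJ), div_eq_mul_inv]

theorem central (s : ℕ) : (2 * s + 1) * s.centralBinom ^ 2 ≤ 16 ^ s := by
  induction s with
  | zero => simp
  | succ s ih =>
    have h := Nat.succ_mul_centralBinom_succ s
    set a := s.centralBinom
    set b := (s + 1).centralBinom
    have h1 : (s + 1) ^ 2 * ((2 * (s + 1) + 1) * b ^ 2) ≤ (s + 1) ^ 2 * 16 ^ (s + 1) := by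
      calc (s + 1) ^ 2 * ((2 * (s + 1) + 1) * b ^ 2)
          = (2 * s + 3) * ((s + 1) * b) ^ 2 := by ring
        _ = (2 * s + 3) * (2 * (2 * s + 1) * a) ^ 2 := by rw [h]
        _ = 4 * (2 * s + 3) * (2 * s + 1) * ((2 * s + 1) * a ^ 2) := by ring
        _ ≤ 4 * (2 * s + 3) * (2 * s + 1) * 16 ^ s := Nat.mul_le_mul_left _ ih
        _ ≤ (16 * (s + 1) ^ 2) * 16 ^ s := Nat.mul_le_mul_right _ (by nlinarith)
        _ = (s + 1) ^ 2 * 16 ^ (s + 1) := by ring
    exact Nat.le_of_mul_le_mul_left h1 (by positivity)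

theorem middle (t : ℕ) : (t + 1) * (t.choose (t / 2)) ^ 2 ≤ 4 ^ t := by
  rcases Nat.even_or_odd' t with ⟨s, rfl | rfl⟩
  · have h := central s
    rw [Nat.centralBinom_eq_two_mul_choose] at h
    rw [Nat.mul_div_cancel_left s (by norm_num), pow_mul]
    exact h
  · have h := central (s + 1)
    have e : (s + 1).centralBinom = 2 * (2 * s + 1).choose s := by
      rw [Nat.centralBinom_eq_two_mul_choose, show 2 * (s + 1) = (2 * s + 1) + 1 by ring,
        Nat.choose_succ_succ, Nat.choose_symm_half]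
      ring
    rw [e] at h
    have e2 : (2 * s + 1) / 2 = s := by omega
    rw [e2]
    have h3 : 4 * ((2 * s + 1 + 1) * ((2 * s + 1).choose s) ^ 2) ≤ 4 * 4 ^ (2 * s + 1) := by
      calc 4 * ((2 * s + 1 + 1) * ((2 * s + 1).choose s) ^ 2)
          ≤ (2 * (s + 1) + 1) * (2 * (2 * s + 1).choose s) ^ 2 := by
            rw [mul_pow]
            nlinarith [Nat.zero_le (((2 * s + 1).choose s) ^ 2)]
        _ ≤ 16 ^ (s + 1) := h
        _ = 4 * 4 ^ (2 * s + 1) := by
            rw [show (16:ℕ) = 4 ^ 2 by norm_num, ← pow_mul]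
            ring
    exact Nat.le_of_mul_le_mul_left h3 (by norm_num)

/-- the exponents which are multiples of `k` -/
def JJ (n k : ℕ) : Finset ℕ := (Icc 1 ((n - 1) / k)).image (fun i => k * i)

theorem card_JJ {n k : ℕ} (hk : 0 < k) : (JJ n k).card = (n - 1) / k := by
  unfold JJ
  rw [card_image_of_injective _ (fun a b h => Nat.eq_of_mul_eq_mul_left hk h), Nat.card_Icc,
    Nat.add_sub_cancel]

theorem JJ_sub {n k : ℕ} (hk : 0 < k) : JJ n k ⊆ Ioo 0 n := by
  intro x hx
  unfold JJ at hx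
  obtain ⟨i, hi, rfl⟩ := mem_image.1 hx
  rw [mem_Icc] at hi
  rw [mem_Ioo]
  have h1 : k * i ≤ n - 1 := by
    calc k * i ≤ k * ((n - 1) / k) := Nat.mul_le_mul_left _ hi.2
      _ ≤ n - 1 := Nat.mul_div_le _ _
  have h2 : 0 < k * i := Nat.mul_pos hk (by omega)
  omega

theorem JJ_pow {n k : ℕ} {ζ : ℂ} (hζ : ζ ^ k = 1) {x : ℕ} (hx : x ∈ JJ n k) : ζ ^ x = 1 := by
  unfold JJ at hx
  obtain ⟨i, hi, rfl⟩ := mem_image.1 hx
  rw [pow_mul, hζ, one_pow]

end unity_

open unity_ in
theorem unity : S_Unity := by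
  intro k ζ hk hζ ε hε
  obtain ⟨T, hT⟩ := exists_nat_ge (1 / ε ^ 2)
  refine ⟨k * T + 1, fun n I hn hI P c hc => ?_⟩
  classical
  have hJI : JJ n k ⊆ I := (JJ_sub hk).trans hI
  have hcard := card_JJ (n := n) hk
  set t := (n - 1) / k with htd
  have hTt : T ≤ t := by
    rw [htd, Nat.le_div_iff_mul_le hk]
    have : T * k = k * T := Nat.mul_comm _ _
    omega
  have h1 := fiber I (JJ n k) hJI (fun S => aeval ζ (fam P c S) = 0) ((t.choose (t / 2) : ℕ) : ℝ) (by
    intro A hA
    unfold cnt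
    refine Nat.cast_le.2 ?_
    by_cases hne : ∃ B ⊆ JJ n k, aeval ζ (fam P c (A ∪ B)) = 0
    · obtain ⟨B0, hB0, h0⟩ := hne
      have key : ∀ B ⊆ JJ n k, aeval ζ (fam P c (A ∪ B)) =
          aeval ζ P + (c : ℂ) * (∑ i ∈ A, ζ ^ i + (B.card : ℂ)) := by
        intro B hB
        have hdisj : Disjoint A B := by
          rw [disjoint_left]
          intro x hx hx'
          exact (mem_sdiff.1 (hA hx)).2 (hB hx')
        unfold fam
        rw [map_add, map_mul, map_sum, sum_union hdisj]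
        have h2 : ∑ i ∈ B, aeval ζ ((X : ℤ[X]) ^ i) = (B.card : ℂ) := by
          rw [sum_congr rfl (g := fun _ => (1 : ℂ)) (fun i hi => by
            rw [map_pow, aeval_X]
            exact JJ_pow hζ (hB hi)), sum_const, nsmul_eq_mul, mul_one]
        have h3 : ∑ i ∈ A, aeval ζ ((X : ℤ[X]) ^ i) = ∑ i ∈ A, ζ ^ i :=
          sum_congr rfl fun i _ => by rw [map_pow, aeval_X]
        rw [h2, h3, aeval_C]
        simp
      have hsub : (JJ n k).powerset.filter (fun B => aeval ζ (fam P c (A ∪ B)) = 0) ⊆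
          (JJ n k).powersetCard B0.card := by
        intro B hB
        obtain ⟨hB1, hB2⟩ := mem_filter.1 hB
        rw [mem_powerset] at hB1
        rw [mem_powersetCard]
        refine ⟨hB1, ?_⟩
        rw [key B hB1] at hB2
        rw [key B0 hB0] at h0
        have hc' : (c : ℂ) ≠ 0 := by exact_mod_cast hc
        have h4 : (c : ℂ) * ((B.card : ℂ) - (B0.card : ℂ)) = 0 := by linear_combination hB2 - h0
        rcases mul_eq_zero.1 h4 with h5 | h5
        · exact absurd h5 hc'
        · exact_mod_cast sub_eq_zero.1 h5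
      refine (card_le_card hsub).trans ?_
      rw [card_powersetCard, hcard]
      exact Nat.choose_le_middle _ _
    · push Not at hne
      rw [filter_eq_empty_iff.2 (fun B hB => hne B (mem_powerset.1 hB)), card_empty]
      exact Nat.zero_le _)
  refine h1.trans ?_
  rw [hcard]
  have hmid : ((t : ℝ) + 1) * ((t.choose (t / 2) : ℕ) : ℝ) ^ 2 ≤ (2 ^ t) ^ 2 := by
    have := middle t
    have h2 : ((t : ℝ) + 1) * ((t.choose (t / 2) : ℕ) : ℝ) ^ 2 ≤ 4 ^ t := by exact_mod_cast this
    rw [← pow_mul, mul_comm t 2, pow_mul]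
    norm_num
    exact h2
  have hb : ((t.choose (t / 2) : ℕ) : ℝ) ≤ ε * 2 ^ t := by
    have hT' : 1 ≤ ε ^ 2 * ((t : ℝ) + 1) := by
      have h2 : 1 / ε ^ 2 ≤ (t : ℝ) + 1 := by
        have : (T : ℝ) ≤ t := by exact_mod_cast hTt
        linarith
      rw [div_le_iff₀ (by positivity)] at h2
      linarith
    refine le_of_sq_le_sq ?_ (by positivity)
    rw [mul_pow]
    set x : ℝ := ((t.choose (t / 2) : ℕ) : ℝ)
    calc x ^ 2 ≤ (ε ^ 2 * ((t : ℝ) + 1)) * x ^ 2 := le_mul_of_one_le_left (by positivity) hT'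
      _ = ε ^ 2 * (((t : ℝ) + 1) * x ^ 2) := by ring
      _ ≤ ε ^ 2 * (2 ^ t) ^ 2 := mul_le_mul_of_nonneg_left hmid (by positivity)
  calc (2:ℝ) ^ I.card / 2 ^ t * ((t.choose (t / 2) : ℕ) : ℝ)
      ≤ 2 ^ I.card / 2 ^ t * (ε * 2 ^ t) := mul_le_mul_of_nonneg_left hb (by positivity)
    _ = ε * 2 ^ I.card := by
        field_simp

end Pool.Agent.H589.Irr
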