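import Pool.Agent.H589.Irr.Spec

/-!
# The case of coefficients 0 and 1
-/

set_option autoImplicit false

open Polynomial Finset

namespace Pool.Agent.H589.Irr

namespace zeroOne_

theorem coeff_fam (n : ℕ) (S : Finset ℕ) (k : ℕ) :
    (fam (X ^ n + 1) 1 S).coeff k =
      (if k = n then 1 else 0) + (if k = 0 then 1 else 0) + (if k ∈ S then 1 else 0) := by
  classical
  unfold fam
  rw [coeff_add, coeff_add, coeff_X_pow, coeff_one, map_one, one_mul, finsetSum_coeff]
  congr 1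
  simp only [coeff_X_pow]
  rw [Finset.sum_ite_eq]

theorem coeff_cases {n : ℕ} (hn : 0 < n) {S : Finset ℕ} (hS : S ⊆ Ioo 0 n) (k : ℕ) :
    (fam (X ^ n + 1) 1 S).coeff k = 0 ∨ (fam (X ^ n + 1) 1 S).coeff k = 1 := by
  classical
  rw [coeff_fam]
  by_cases h1 : k = n
  · have h2 : k ≠ 0 := by omega
    have h3 : k ∉ S := fun h => by have := mem_Ioo.1 (hS h); omega
    simp [h1, h2, h3]
    subst h1
    simp [h2, h3]
  · by_cases h2 : k = 0
    · have h3 : k ∉ S := fun h => by have := mem_Ioo.1 (hS h); omega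
      simp [h1, h2, h3]
      subst h2
      simp [h1, h3]
    · by_cases h3 : k ∈ S <;> simp [h1, h2, h3]

theorem coeff_n {n : ℕ} (hn : 0 < n) {S : Finset ℕ} (hS : S ⊆ Ioo 0 n) :
    (fam (X ^ n + 1) 1 S).coeff n = 1 := by
  classical
  rw [coeff_fam]
  have h2 : n ≠ 0 := by omega
  have h3 : n ∉ S := fun h => by have := mem_Ioo.1 (hS h); omega
  simp [h2, h3]

theorem coeff_z {n : ℕ} (hn : 0 < n) {S : Finset ℕ} (hS : S ⊆ Ioo 0 n) :
    (fam (X ^ n + 1) 1 S).coeff 0 = 1 := by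
  classical
  rw [coeff_fam]
  have h2 : 0 ≠ n := by omega
  have h3 : 0 ∉ S := fun h => by have := mem_Ioo.1 (hS h); omega
  simp [h2, h3]

theorem coeff_gt {n : ℕ} {S : Finset ℕ} (hS : S ⊆ Ioo 0 n) {k : ℕ} (hk : n < k) :
    (fam (X ^ n + 1) 1 S).coeff k = 0 := by
  classical
  rw [coeff_fam]
  have h1 : k ≠ n := by omega
  have h2 : k ≠ 0 := by omega
  have h3 : k ∉ S := fun h => by have := mem_Ioo.1 (hS h); omega
  simp [h1, h2, h3]

theorem natDeg {n : ℕ} (hn : 0 < n) {S : Finset ℕ} (hS : S ⊆ Ioo 0 n) :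
    (fam (X ^ n + 1) 1 S).natDegree = n := by
  apply le_antisymm
  · rw [natDegree_le_iff_coeff_eq_zero]
    intro k hk
    exact coeff_gt hS hk
  · apply le_natDegree_of_ne_zero
    rw [coeff_n hn hS]
    exact one_ne_zero

theorem good {n : ℕ} (hn : 0 < n) : Good n (Ioo 0 n) (X ^ n + 1) 1 := by
  classical
  refine ⟨one_ne_zero, subset_rfl, fun S hS => ⟨natDeg hn hS, ?_, ?_, ?_⟩⟩
  · rw [leadingCoeff, natDeg hn hS, coeff_n hn hS, abs_one]
  · rw [coeff_z hn hS]
    exact one_ne_zero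
  · refine (mahlerMeasure_le_sqrt_sum_sq_norm_coeff _).trans ?_
    apply Real.sqrt_le_sqrt
    set f := fam (X ^ n + 1) 1 S with hf
    have h1 : (f.map (Int.castRingHom ℂ)).support ⊆ range (n + 1) := by
      intro i hi
      rw [mem_range]
      by_contra h
      have h2 : f.coeff i = 0 := coeff_gt hS (by omega)
      have h3 := mem_support_iff.mp hi
      rw [coeff_map, h2] at h3
      simp at h3
    calc ∑ i ∈ (f.map (Int.castRingHom ℂ)).support, ‖(f.map (Int.castRingHom ℂ)).coeff i‖ ^ 2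
        ≤ ∑ i ∈ range (n + 1), ‖(f.map (Int.castRingHom ℂ)).coeff i‖ ^ 2 :=
          sum_le_sum_of_subset_of_nonneg h1 fun _ _ _ => by positivity
      _ ≤ ∑ i ∈ range (n + 1), (1 : ℝ) := by
          apply sum_le_sum
          intro i hi
          rw [coeff_map]
          rcases coeff_cases hn hS i with h | h <;> rw [h] <;> simp
      _ = (n : ℝ) + 1 := by simp

theorem fam_eq (n : ℕ) (S : Finset ℕ) :
    fam (X ^ n + 1) 1 S = (X : ℤ[X]) ^ n + 1 + ∑ i ∈ S, (X : ℤ[X]) ^ i := by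
  unfold fam
  rw [map_one, one_mul]

end zeroOne_

open zeroOne_

theorem zeroOne : S_Main → S_ZeroOne := by
  classical
  intro hmain
  unfold S_ZeroOne
  rw [Metric.tendsto_atTop]
  intro ε hε
  obtain ⟨N, hN⟩ := hmain (ε / 2) (by positivity)
  refine ⟨max N 1, fun n hn => ?_⟩
  have hnN : N ≤ n := le_trans (le_max_left _ _) hn
  have hn0 : 0 < n := lt_of_lt_of_le Nat.zero_lt_one (le_trans (le_max_right _ _) hn)
  have h1 := hN n (Ioo 0 n) (X ^ n + 1) 1 hnN (good hn0)
  have hI : (Ioo 0 n).card = n - 1 := by simp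
  rw [hI] at h1
  -- the two counts
  have h2 : ({S : Finset ℕ | S ⊆ Finset.Ioo 0 n ∧
      Irreducible ((Polynomial.X : Polynomial ℤ) ^ n + 1 +
        ∑ i ∈ S, (Polynomial.X : Polynomial ℤ) ^ i)} : Set (Finset ℕ)).ncard =
      ((Ioo 0 n).powerset.filter fun S => Irreducible (fam (X ^ n + 1) 1 S)).card := by
    rw [← Set.ncard_coe_finset]
    congr 1
    ext S
    simp only [Set.mem_ofPred_eq, coe_filter, mem_powerset, fam_eq]
  have h3 : (((Ioo 0 n).powerset.filter fun S => Irreducible (fam (X ^ n + 1) 1 S)).card : ℝ) +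
      cnt (Ioo 0 n) (fun S => ¬ Irreducible (fam (X ^ n + 1) 1 S)) = 2 ^ (n - 1) := by
    unfold cnt
    have h4 := Finset.card_filter_add_card_filter_not (s := (Ioo 0 n).powerset)
      (fun S => Irreducible (fam (X ^ n + 1) 1 S))
    rw [card_powerset, hI] at h4
    have h5 : (((Ioo 0 n).powerset.filter fun S => Irreducible (fam (X ^ n + 1) 1 S)).card +
      ((Ioo 0 n).powerset.filter fun S => ¬ Irreducible (fam (X ^ n + 1) 1 S)).card : ℝ) =
        ((2 ^ (n - 1) : ℕ) : ℝ) := by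
      exact_mod_cast h4
    rw [Nat.cast_pow, Nat.cast_ofNat] at h5
    convert h5
  rw [h2, Real.dist_eq]
  have hpos : (0 : ℝ) < 2 ^ (n - 1) := by positivity
  have h0 : 0 ≤ cnt (Ioo 0 n) (fun S => ¬ Irreducible (fam (X ^ n + 1) 1 S)) := by
    unfold cnt; positivity
  have h4 : (((Ioo 0 n).powerset.filter fun S => Irreducible (fam (X ^ n + 1) 1 S)).card : ℝ) /
      2 ^ (n - 1) - 1 =
      -(cnt (Ioo 0 n) (fun S => ¬ Irreducible (fam (X ^ n + 1) 1 S)) / 2 ^ (n - 1)) := by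
    rw [eq_sub_of_add_eq h3]
    field_simp
    ring
  rw [h4, abs_neg, abs_of_nonneg (by positivity), div_lt_iff₀ hpos]
  refine lt_of_le_of_lt h1 ?_
  exact mul_lt_mul_of_pos_right (by linarith) hpos

end Pool.Agent.H589.Irr
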