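import Pool.Agent.H589.Irr.Fib
import Pool.Agent.H589.Irr.Big
import Pool.Agent.H589.Irr.Unity
import Pool.Agent.H589.Irr.Trace
import Pool.Agent.H589.Irr.Psum
import Pool.Agent.H589.Irr.House
import Pool.Agent.H589.Irr.Box
import Pool.Agent.H589.Irr.Small
import Pool.Agent.H589.Irr.Low
import Pool.Agent.H589.Irr.Main
import Pool.Agent.H589.Irr.ZeroOne
import Pool.Agent.H589.Irr.Littlewood

/-!
# Random polynomials with coefficients 0, 1 (or ±1) are irreducible with probability tending to 1
-/

set_option autoImplicit false

namespace Pool.Agent.H589.Irr

theorem all_main : S_Main := main (small div) (low (house trace psum) big box) unity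

theorem final_zeroOne : S_ZeroOne := zeroOne all_main

theorem final_littlewood : S_Littlewood := littlewood all_main

end Pool.Agent.H589.Irr
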