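import Mathlib

/-!
# Random polynomials with two coefficient values are irreducible: the plan

`fam P c S = P + c ∑_{i ∈ S} X^i`, `S ⊆ I`, `{1, …, n-1} ⊆ I ⊆ {0, …, n}`.
-/

set_option autoImplicit false

open Polynomial Finset

namespace Pool.Agent.H589.Irr

/-- the family of polynomials. -/
noncomputable def fam (P : ℤ[X]) (c : ℤ) (S : Finset ℕ) : ℤ[X] := P + C c * ∑ i ∈ S, X ^ i

open Classical in
/-- number of `S ⊆ I` with `Q S`. -/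
noncomputable def cnt (I : Finset ℕ) (Q : Finset ℕ → Prop) : ℝ := ((I.powerset.filter Q).card : ℝ)

/-- Fibration over `S \ J`. -/
def S_Fiber : Prop := ∀ (I J : Finset ℕ), J ⊆ I → ∀ (Q : Finset ℕ → Prop) (N : ℝ), 0 ≤ N →
  (∀ A : Finset ℕ, A ⊆ I \ J → cnt J (fun B => Q (A ∪ B)) ≤ N) →
  cnt I Q ≤ 2 ^ I.card / 2 ^ J.card * N

/-- Few members are divisible by a given polynomial. -/
def S_Div : Prop := ∀ (n : ℕ) (I : Finset ℕ), Ioo 0 n ⊆ I → ∀ (P : ℤ[X]) (c : ℤ), c ≠ 0 →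
  ∀ g : ℤ[X], 1 ≤ g.natDegree → g.natDegree ≤ n →
  cnt I (fun S => g ∣ fam P c S) ≤ 2 ^ I.card / 2 ^ (g.natDegree - 1)

/-- Few members vanish at a point with `|α|^k ≥ 2`. -/
def S_Big : Prop := ∀ (n : ℕ) (I : Finset ℕ), Ioo 0 n ⊆ I → ∀ (P : ℤ[X]) (c : ℤ), c ≠ 0 →
  ∀ (k : ℕ) (α : ℂ), 0 < k → 2 ≤ ‖α‖ ^ k →
  cnt I (fun S => aeval α (fam P c S) = 0) ≤ 2 ^ I.card / 2 ^ ((n - 1) / k)

/-- Few members vanish at a root of unity. -/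
def S_Unity : Prop := ∀ (k : ℕ) (ζ : ℂ), 0 < k → ζ ^ k = 1 → ∀ ε : ℝ, 0 < ε → ∃ N : ℕ,
  ∀ (n : ℕ) (I : Finset ℕ), N ≤ n → Ioo 0 n ⊆ I → ∀ (P : ℤ[X]) (c : ℤ), c ≠ 0 →
  cnt I (fun S => aeval ζ (fam P c S) = 0) ≤ ε * 2 ^ I.card

/-- Traces of powers modulo `p`. -/
def S_Trace : Prop := ∀ (g : ℤ[X]), g.Monic → ∀ (p : ℕ), p.Prime → ∀ k : ℕ, ∃ t : ℤ,
  ((g.map (Int.castRingHom ℂ)).roots.map (fun z => z ^ (k * p))).sum -
    ((g.map (Int.castRingHom ℂ)).roots.map (fun z => z ^ k)).sum = (p : ℂ) * t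

/-- Power sums determine a multiset. -/
def S_Psum : Prop := ∀ (R R' : Multiset ℂ), R.card = R'.card →
  (∀ k : ℕ, 1 ≤ k → k ≤ R.card → (R.map (fun z => z ^ k)).sum = (R'.map (fun z => z ^ k)).sum) →
  R = R'

/-- Dobrowolski's bound for the house (weak form). -/
def S_House : Prop := ∀ (g : ℤ[X]), g.Monic → 1 ≤ g.natDegree →
  (∀ z : ℂ, z ∈ (g.map (Int.castRingHom ℂ)).roots → ‖z‖ ^ (8 * g.natDegree ^ 2) < 2) →
  ∀ z : ℂ, z ∈ (g.map (Int.castRingHom ℂ)).roots → z = 0 ∨ ∃ k : ℕ, 0 < k ∧ z ^ k = 1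

/-- The number of integer polynomials of degree `≤ m` and Mahler measure `≤ B`. -/
def S_Box : Prop := ∀ (m : ℕ) (B : ℝ), 1 ≤ B → ∀ F : Finset ℤ[X],
  (∀ g ∈ F, g.natDegree ≤ m ∧ (g.map (Int.castRingHom ℂ)).mahlerMeasure ≤ B) →
  (F.card : ℝ) ≤ (2 ^ (m + 2) * B) ^ (m + 1)

/-- Few members have a divisor of large degree and small measure. -/
def S_Small : Prop := ∀ e : ℝ, 0 < e → ∀ ε : ℝ, 0 < ε → ∃ M₀ : ℕ,
  ∀ (n : ℕ) (I : Finset ℕ), Ioo 0 n ⊆ I → ∀ (P : ℤ[X]) (c : ℤ), c ≠ 0 →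
  cnt I (fun S => ∃ g : ℤ[X], g ∣ fam P c S ∧ M₀ ≤ g.natDegree ∧ g.natDegree ≤ n ∧
    (g.map (Int.castRingHom ℂ)).mahlerMeasure ≤ (g.natDegree : ℝ) ^ (1 / 2 - e)) ≤
    ε * 2 ^ I.card

/-- The hypotheses on the members of the family. -/
def Good (n : ℕ) (I : Finset ℕ) (P : ℤ[X]) (c : ℤ) : Prop :=
  c ≠ 0 ∧ Ioo 0 n ⊆ I ∧ ∀ S ⊆ I, (fam P c S).natDegree = n ∧ |(fam P c S).leadingCoeff| = 1 ∧
    (fam P c S).coeff 0 ≠ 0 ∧
    ((fam P c S).map (Int.castRingHom ℂ)).mahlerMeasure ≤ √((n : ℝ) + 1)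

/-- Few members have a divisor of small degree with a root that is not a root of unity. -/
def S_Low : Prop := ∀ ε : ℝ, 0 < ε → ∃ N : ℕ,
  ∀ (n : ℕ) (I : Finset ℕ) (P : ℤ[X]) (c : ℤ), N ≤ n → Good n I P c →
  cnt I (fun S => ∃ g : ℤ[X], g ∣ fam P c S ∧ 1 ≤ g.natDegree ∧ g.natDegree ^ 8 ≤ n ∧
    ∃ z : ℂ, aeval z g = 0 ∧ z ≠ 0 ∧ ∀ k : ℕ, 0 < k → z ^ k ≠ 1) ≤ ε * 2 ^ I.card

/-- Few members are reducible. -/
def S_Main : Prop := ∀ ε : ℝ, 0 < ε → ∃ N : ℕ,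
  ∀ (n : ℕ) (I : Finset ℕ) (P : ℤ[X]) (c : ℤ), N ≤ n → Good n I P c →
  cnt I (fun S => ¬ Irreducible (fam P c S)) ≤ ε * 2 ^ I.card

/-- Coefficients 0 and 1 (frozen statement S17705). -/
def S_ZeroOne : Prop := Filter.Tendsto
      (fun n : ℕ =>
        (({S : Finset ℕ | S ⊆ Finset.Ioo 0 n ∧
            Irreducible ((Polynomial.X : Polynomial ℤ) ^ n + 1 +
              ∑ i ∈ S, (Polynomial.X : Polynomial ℤ) ^ i)} : Set (Finset ℕ)).ncard : ℝ)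
          / (2 : ℝ) ^ (n - 1))
      Filter.atTop (nhds 1)

/-- Coefficients ±1 (frozen statement S19411). -/
def S_Littlewood : Prop := Filter.Tendsto
      (fun n : ℕ =>
        (Nat.card {f : Fin (n + 1) → Bool //
            ¬ Irreducible (∑ i : Fin (n + 1),
              Polynomial.C (if f i then (1 : ℚ) else -1) * Polynomial.X ^ (i : ℕ))} : ℝ)
          / (2 : ℝ) ^ (n + 1))
      Filter.atTop (nhds 0)

end Pool.Agent.H589.Irr
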